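import Mathlib

set_option autoImplicit false

/-! The solutions of `d² - 8 b² = 1`. -/

open Finset

namespace Pool.Agent.Helper24K9.PD

/-- `(3 + √8)^m = d m + b m √8` -/
def db : ℕ → ℕ × ℕ
  | 0 => (1, 0)
  | m + 1 => (3 * (db m).1 + 8 * (db m).2, (db m).1 + 3 * (db m).2)

/-- the first coordinate -/
def d (m : ℕ) : ℕ := (db m).1

/-- the second coordinate -/
def b (m : ℕ) : ℕ := (db m).2

lemma d_zero : d 0 = 1 := rfl
lemma b_zero : b 0 = 0 := rfl
lemma d_succ (m : ℕ) : d (m + 1) = 3 * d m + 8 * b m := rfl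
lemma b_succ (m : ℕ) : b (m + 1) = d m + 3 * b m := rfl

lemma pell (m : ℕ) : (d m : ℤ) ^ 2 = 8 * (b m : ℤ) ^ 2 + 1 := by
  induction m with
  | zero => simp [d_zero, b_zero]
  | succ m ih => rw [d_succ, b_succ]; push_cast; linear_combination ih

lemma add_formula (m n : ℕ) : d (m + n) = d m * d n + 8 * (b m * b n) ∧ b (m + n) = d m * b n + b m * d n := by
  induction n with
  | zero => simp [d_zero, b_zero]
  | succ n ih =>
    obtain ⟨h1, h2⟩ := ih
    have e : m + (n + 1) = (m + n) + 1 := by omega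
    rw [e]
    simp only [d_succ, b_succ, h1, h2]
    constructor <;> ring

lemma b_sub {s t : ℕ} (h : t ≤ s) : (b (s - t) : ℤ) = b s * d t - d s * b t := by
  obtain ⟨k, rfl⟩ := Nat.exists_eq_add_of_le h
  rw [Nat.add_sub_cancel_left]
  obtain ⟨h1, h2⟩ := add_formula t k
  rw [h1, h2]
  push_cast
  have h3 := pell t
  linear_combination (-(b k : ℤ)) * h3

lemma d_pos (m : ℕ) : 1 ≤ d m := by
  induction m with
  | zero => simp [d_zero]
  | succ m ih => rw [d_succ]; omega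

lemma b_lt_succ (m : ℕ) : b m < b (m + 1) := by
  rw [b_succ]
  have := d_pos m
  omega

lemma b_strictMono : StrictMono b := strictMono_nat_of_lt_succ b_lt_succ

lemma b_pos {m : ℕ} (hm : 1 ≤ m) : 1 ≤ b m := by
  have := b_strictMono (show 0 < m by omega)
  rw [b_zero] at this
  exact this

lemma eight_b_le (m : ℕ) : 8 * b m ≤ 3 * d m := by
  have h := pell m
  have h1 : ((8 * b m : ℕ) : ℤ) ^ 2 ≤ ((3 * d m : ℕ) : ℤ) ^ 2 := by
    push_cast
    nlinarith [sq_nonneg (d m : ℤ)]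
  have h2 : (8 * b m) ^ 2 ≤ (3 * d m) ^ 2 := by exact_mod_cast h1
  exact (Nat.pow_le_pow_iff_left two_ne_zero).1 h2

lemma d_le (m : ℕ) : d m ≤ 6 ^ m := by
  induction m with
  | zero => simp [d_zero]
  | succ m ih =>
    rw [d_succ, pow_succ]
    have := eight_b_le m
    omega

lemma b_le_d (m : ℕ) : b m ≤ d m := by
  have := eight_b_le m
  omega

lemma b_le (m : ℕ) : b m ≤ 6 ^ m := (b_le_d m).trans (d_le m)

lemma b_two_mul (m : ℕ) : b (2 * m) = 2 * (d m * b m) := by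
  rw [two_mul, (add_formula m m).2]
  ring

lemma d_dvd_b (m : ℕ) : d m ∣ b (2 * m) := ⟨2 * b m, by rw [b_two_mul]; ring⟩

lemma d_odd (m : ℕ) : ¬ 2 ∣ d m := by
  intro h
  have h1 := pell m
  have h2 : (2 : ℤ) ∣ (d m : ℤ) := by exact_mod_cast h
  obtain ⟨k, hk⟩ := h2
  rw [hk] at h1
  have h3 : 2 * (2 * k ^ 2) = 2 * (4 * (b m : ℤ) ^ 2) + 1 := by linarith
  generalize 2 * k ^ 2 = x at h3
  generalize 4 * (b m : ℤ) ^ 2 = y at h3
  omega

lemma diff_sq {s t : ℕ} (h : t ≤ s) : (d s : ℤ) ^ 2 - (d t : ℤ) ^ 2 = 8 * (b (s + t) * b (s - t)) := by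
  rw [b_sub h, (add_formula s t).2]
  push_cast
  have h1 := pell s
  have h2 := pell t
  linear_combination (1 + 8 * (b t : ℤ) ^ 2) * h1 - (1 + 8 * (b s : ℤ) ^ 2) * h2

/-- the numbers `h` with `e ∣ b h` -/
lemma dvd_b_sub {e s t : ℕ} (h : t ≤ s) (hs : e ∣ b s) (ht : e ∣ b t) : e ∣ b (s - t) := by
  have h1 : (e : ℤ) ∣ (b (s - t) : ℤ) := by
    rw [b_sub h]
    exact dvd_sub ((Int.natCast_dvd_natCast.2 hs).mul_right _) ((Int.natCast_dvd_natCast.2 ht).mul_left _)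
  exact_mod_cast h1

/-- sets closed under positive differences -/
lemma card_closed (H z : ℕ) (hz : 1 ≤ z) (A : Finset ℕ) (hA : A ⊆ Icc 1 H) (hmin : ∀ a ∈ A, z ≤ a)
    (hcl : ∀ a ∈ A, ∀ a' ∈ A, a < a' → a' - a ∈ A) : A.card ≤ H / z := by
  have h1 : A.card ≤ (Icc 1 (H / z)).card := by
    apply card_le_card_of_injOn (fun a => a / z)
    · intro a ha
      have ha' : a ∈ A := ha
      rw [coe_Icc, Set.mem_Icc]
      refine ⟨?_, Nat.div_le_div_right (mem_Icc.1 (hA ha')).2⟩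
      exact (Nat.one_le_div_iff hz).2 (hmin a ha')
    · intro a ha a' ha' h
      have h0 : a ∈ A := ha
      have h0' : a' ∈ A := ha'
      simp only at h
      by_contra hne
      have key : ∀ x ∈ A, ∀ x' ∈ A, x < x' → x / z ≠ x' / z := by
        intro x hx x' hx' hlt heq
        have h2 := hmin _ (hcl x hx x' hx' hlt)
        have h3 : x + z ≤ x' := by omega
        have h4 : (x + z) / z ≤ x' / z := Nat.div_le_div_right h3
        rw [Nat.add_div_right _ hz] at h4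
        omega
      rcases lt_or_gt_of_ne hne with h1 | h1
      · exact key a h0 a' h0' h1 h
      · exact key a' h0' a h0 h1 h.symm
  rwa [Nat.card_Icc, Nat.add_sub_cancel] at h1

/-- few `m` with a large prime power divisor of `(d m)²` -/
lemma card_rho_sq (r₁ a₁ : ℕ) (hr : r₁.Prime) (Z : ℕ) (hZ : 1 ≤ Z) (h : 36 ^ Z < r₁ ^ a₁) (M : ℕ) :
    ((Icc 1 M).filter (fun m => r₁ ^ a₁ ∣ d m ^ 2)).card ≤ 2 * M / Z := by
  set k := (a₁ + 1) / 2 with hk
  have hk2 : 36 ^ Z < (r₁ ^ k) ^ 2 := by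
    refine h.trans_le ?_
    rw [← pow_mul]
    exact Nat.pow_le_pow_right hr.pos (by omega)
  have hk3 : 6 ^ Z < r₁ ^ k := by
    have e : 36 ^ Z = (6 ^ Z) ^ 2 := by
      rw [← pow_mul, mul_comm Z 2, pow_mul]
      norm_num
    rw [e] at hk2
    exact lt_of_pow_lt_pow_left₀ 2 (Nat.zero_le _) hk2
  set A := (Icc 1 (2 * M)).filter (fun h => r₁ ^ k ∣ b h) with hA
  have hAc : A.card ≤ 2 * M / Z := by
    apply card_closed (2 * M) Z hZ A (filter_subset _ _)
    · intro h' hh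
      rw [hA, mem_filter, mem_Icc] at hh
      by_contra hcon
      push Not at hcon
      have h4 := Nat.le_of_dvd (b_pos hh.1.1) hh.2
      have h5 := b_le h'
      have h6 : 6 ^ h' ≤ 6 ^ Z := Nat.pow_le_pow_right (by norm_num) hcon.le
      omega
    · intro x hx x' hx' hlt
      rw [hA, mem_filter, mem_Icc] at hx hx' ⊢
      exact ⟨⟨by omega, by omega⟩, dvd_b_sub hlt.le hx'.2 hx.2⟩
  refine le_trans ?_ hAc
  apply card_le_card_of_injOn (fun m => 2 * m)
  · intro m hm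
    rw [mem_coe, mem_filter, mem_Icc] at hm
    rw [mem_coe, hA, mem_filter, mem_Icc]
    show (1 ≤ 2 * m ∧ 2 * m ≤ 2 * M) ∧ r₁ ^ k ∣ b (2 * m)
    refine ⟨⟨by omega, by omega⟩, ?_⟩
    have h5 : r₁ ^ a₁ ∣ d m ^ 2 := hm.2
    have hd0 : d m ≠ 0 := by have := d_pos m; omega
    have h6 : r₁ ^ k ∣ d m := by
      rw [hr.pow_dvd_iff_le_factorization hd0]
      rw [hr.pow_dvd_iff_le_factorization (pow_ne_zero 2 hd0), Nat.factorization_pow] at h5
      simp only [Finsupp.smul_apply, smul_eq_mul] at h5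
      omega
    exact h6.trans (d_dvd_b m)
  · intro m _ m' _ h'
    simp only at h'
    omega

/-- few `m` with a large prime power divisor of `c (d m)²` -/
lemma card_rho (c : ℕ) (hc : 0 < c) (r₁ a₁ : ℕ) (hr : r₁.Prime) (Z : ℕ) (hZ : 1 ≤ Z) (h : c * 36 ^ Z < r₁ ^ a₁) (M : ℕ) :
    ((Icc 1 M).filter (fun m => r₁ ^ a₁ ∣ c * d m ^ 2)).card ≤ 2 * M / Z := by
  set e := c.factorization r₁ with he
  have h1 : r₁ ^ e ≤ c := Nat.le_of_dvd hc (Nat.ordProj_dvd c r₁)
  have h36 : 1 ≤ 36 ^ Z := Nat.one_le_pow _ _ (by norm_num)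
  have hea : e ≤ a₁ := by
    by_contra hcon
    push Not at hcon
    have h2 : r₁ ^ a₁ ≤ r₁ ^ e := Nat.pow_le_pow_right hr.pos hcon.le
    nlinarith
  have h2 : 36 ^ Z < r₁ ^ (a₁ - e) := by
    by_contra hcon
    push Not at hcon
    have h3 : r₁ ^ a₁ = r₁ ^ e * r₁ ^ (a₁ - e) := by rw [← pow_add]; congr 1; omega
    have h4 : r₁ ^ e * r₁ ^ (a₁ - e) ≤ c * 36 ^ Z := Nat.mul_le_mul h1 hcon
    omega
  refine le_trans ?_ (card_rho_sq r₁ (a₁ - e) hr Z hZ h2 M)
  apply card_le_card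
  intro m hm
  rw [mem_filter] at hm ⊢
  refine ⟨hm.1, ?_⟩
  have hd0 : d m ≠ 0 := by have := d_pos m; omega
  have h5 := hm.2
  rw [hr.pow_dvd_iff_le_factorization (mul_ne_zero hc.ne' (pow_ne_zero 2 hd0)),
    Nat.factorization_mul hc.ne' (pow_ne_zero 2 hd0)] at h5
  rw [hr.pow_dvd_iff_le_factorization (pow_ne_zero 2 hd0)]
  simp only [Finsupp.add_apply] at h5
  omega

/-- every modulus divides some `b n` -/
lemma exists_dvd_b (v : ℕ) (hv : 1 ≤ v) : ∃ n : ℕ, 1 ≤ n ∧ v ∣ b n := by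
  haveI : NeZero v := ⟨by omega⟩
  obtain ⟨s, t, hst, h⟩ := Finite.exists_ne_map_eq_of_infinite (fun m : ℕ => ((d m : ZMod v), (b m : ZMod v)))
  have key : ∀ s t : ℕ, t < s → ((d s : ZMod v), (b s : ZMod v)) = ((d t : ZMod v), (b t : ZMod v)) →
      ∃ n : ℕ, 1 ≤ n ∧ v ∣ b n := by
    intro s t hlt heq
    rw [Prod.mk.injEq] at heq
    refine ⟨s - t, by omega, ?_⟩
    rw [← ZMod.natCast_eq_zero_iff]
    have h1 := congrArg (fun x : ℤ => (x : ZMod v)) (b_sub hlt.le)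
    push_cast at h1
    rw [h1, heq.1, heq.2]
    ring
  rcases lt_or_gt_of_ne hst with h1 | h1
  · exact key t s h1 h.symm
  · exact key s t h1 h

lemma dvd_b_mul {v n : ℕ} (h : v ∣ b n) (i : ℕ) : v ∣ b (n * i) := by
  induction i with
  | zero => simp [b_zero]
  | succ i ih =>
    rw [mul_add, mul_one, (add_formula (n * i) n).2]
    exact dvd_add (h.mul_left _) (ih.mul_right _)

end Pool.Agent.Helper24K9.PD
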