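import Mathlib
import Pool.Agent.Helper24K9.PD.Seq
import Pool.Agent.Helper24K9.LI.Cc

set_option autoImplicit false

/-! A theorem of the type of Romanoff for the sequence `b h`. -/

open Finset Filter Topology

namespace Pool.Agent.Helper24K9.PD

open Pool.Agent.Erdos456 Pool.Agent.Erdos456.Mert Pool.Agent.W218.HF Pool.Agent.Helper24K9.LI

/-- `b 1 ⋯ b n` -/
def BB (n : ℕ) : ℕ := ∏ k ∈ Icc 1 n, b k

lemma BB_pos (n : ℕ) : 0 < BB n := prod_pos fun k hk => b_pos (mem_Icc.1 hk).1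

lemma BB_le (n : ℕ) : (BB n : ℝ) ≤ Real.exp (2 * (n ^ 2 : ℕ)) := by
  have h1 : BB n ≤ 6 ^ (n ^ 2) := by
    calc BB n ≤ ∏ k ∈ Icc 1 n, 6 ^ n := by
          apply prod_le_prod' 
          intro k hk
          exact (b_le k).trans (Nat.pow_le_pow_right (by norm_num) (mem_Icc.1 hk).2)
      _ = 6 ^ (n ^ 2) := by rw [prod_const, Nat.card_Icc, Nat.add_sub_cancel, ← pow_mul, sq]
  have h2 : (BB n : ℝ) ≤ 6 ^ (n ^ 2) := by exact_mod_cast h1
  refine h2.trans ?_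
  have h3 : (6:ℝ) ≤ Real.exp 2 := by
    have h4 := Real.exp_one_gt_d9
    have h5 : Real.exp 2 = Real.exp 1 ^ 2 := by rw [← Real.exp_nat_mul]; norm_num
    rw [h5]
    nlinarith
  calc (6:ℝ) ^ (n ^ 2) ≤ Real.exp 2 ^ (n ^ 2) := by gcongr
    _ = _ := by rw [← Real.exp_nat_mul]; congr 1; ring

lemma prod_k_le (k n : ℕ) (hn : 0 < n) : ∏ p ∈ n.primeFactors, (1 + (k : ℝ) / p) ≤ GG n ^ k := by
  rw [GG_eq_prod hn, ← prod_pow]
  apply Finset.prod_le_prod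
  · intro p _; positivity
  · intro p hp
    have hpp := Nat.prime_of_mem_primeFactors hp
    have hp2 : (2:ℝ) ≤ p := by exact_mod_cast hpp.two_le
    have hx : 0 < (p:ℝ)⁻¹ := by positivity
    have hx2 : (p:ℝ)⁻¹ ≤ 1 / 2 := by
      rw [inv_eq_one_div]
      exact one_div_le_one_div_of_le (by norm_num) hp2
    have h1 : 1 + (p:ℝ)⁻¹ ≤ (1 - (p:ℝ)⁻¹)⁻¹ := by
      rw [le_inv_comm₀ (by linarith) (by linarith), ← one_div (1 + (p:ℝ)⁻¹), le_div_iff₀ (by linarith)]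
      nlinarith
    have h2 : 1 + (k : ℝ) * (p:ℝ)⁻¹ ≤ (1 + (p:ℝ)⁻¹) ^ k := one_add_mul_le_pow (by linarith) k
    calc 1 + (k : ℝ) / p = 1 + (k : ℝ) * (p:ℝ)⁻¹ := by rw [div_eq_mul_inv]
      _ ≤ (1 + (p:ℝ)⁻¹) ^ k := h2
      _ ≤ _ := by gcongr

lemma GG_BB : ∃ C : ℝ, 0 < C ∧ ∀ i : ℕ, GG (BB (2 ^ (i + 1))) ≤ C * ((i + 1 : ℕ) : ℝ) := by
  obtain ⟨c, hc, hW⟩ := Wz_lower
  refine ⟨Real.exp 3 * 2 / c, by positivity, fun i => ?_⟩
  set n := 2 ^ (i + 1) with hn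
  have hn2 : 2 ≤ n := by
    rw [hn]
    calc 2 = 2 ^ 1 := rfl
      _ ≤ 2 ^ (i + 1) := Nat.pow_le_pow_right (by norm_num) (by omega)
  have hn4 : 4 ≤ n ^ 2 := by nlinarith
  have h1 := GG_le_W 2 (by norm_num) (BB_pos n) (show 1 ≤ n ^ 2 by omega) (BB_le n)
  have h2 := hW (n ^ 2) (by omega)
  have h3 : Real.log ((n ^ 2 : ℕ) : ℝ) ≤ 2 * ((i + 1 : ℕ) : ℝ) := by
    rw [hn]
    push_cast
    rw [Real.log_pow, Real.log_pow]
    push_cast
    have h4 := Real.log_two_lt_d9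
    have h5 : (0:ℝ) ≤ (i : ℝ) + 1 := by positivity
    nlinarith
  have h4 : 0 < Real.log ((n ^ 2 : ℕ) : ℝ) := Real.log_pos (by exact_mod_cast (by omega : 1 < n ^ 2))
  have h5 : 0 < Wz (n ^ 2) := Wz_pos _
  refine h1.trans ?_
  rw [div_le_iff₀ h5]
  have h6 : (3:ℝ) / 2 * 2 = 3 := by norm_num
  rw [h6]
  have h7 : c ≤ Wz (n ^ 2) * Real.log ((n ^ 2 : ℕ) : ℝ) := by
    rwa [div_le_iff₀ h4] at h2
  have h8 : Wz (n ^ 2) * Real.log ((n ^ 2 : ℕ) : ℝ) ≤ Wz (n ^ 2) * (2 * ((i + 1 : ℕ) : ℝ)) :=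
    mul_le_mul_of_nonneg_left h3 h5.le
  have e : Real.exp 3 * 2 / c * ((i + 1 : ℕ) : ℝ) * Wz (n ^ 2) =
      Real.exp 3 / c * (Wz (n ^ 2) * (2 * ((i + 1 : ℕ) : ℝ))) := by ring
  rw [e]
  calc Real.exp 3 = Real.exp 3 / c * c := by field_simp
    _ ≤ Real.exp 3 / c * (Wz (n ^ 2) * (2 * ((i + 1 : ℕ) : ℝ))) := by
        apply mul_le_mul_of_nonneg_left (h7.trans h8) (by positivity)

/-- **Romanoff type theorem.** -/
lemma rom (k : ℕ) : ∃ C : ℝ, 0 < C ∧ ∀ H : ℕ, ∑ h ∈ Icc 1 H, ∏ p ∈ (b h).primeFactors, (1 + (k : ℝ) / p) ≤ C * H := by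
  classical
  obtain ⟨C₁, hC₁, hGG⟩ := GG_BB
  have hsum : Summable (fun i : ℕ => ((i : ℕ) : ℝ) ^ k * (1 / 2 : ℝ) ^ i) :=
    summable_pow_mul_geometric_of_norm_lt_one k (by rw [Real.norm_eq_abs, abs_of_pos (by norm_num)]; norm_num)
  set Sg : ℝ := ∑' i : ℕ, ((i : ℕ) : ℝ) ^ k * (1 / 2 : ℝ) ^ i with hSg
  have hSg0 : 0 ≤ Sg := tsum_nonneg fun i => by positivity
  refine ⟨C₁ ^ k * (2 * Sg) + 1, by positivity, fun H => ?_⟩
  set w : Finset ℕ → ℝ := fun s => ∏ p ∈ s, ((k : ℝ) / p) with hw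
  have hw0 : ∀ s, 0 ≤ w s := fun s => prod_nonneg fun p _ => by positivity
  have hprod : ∀ n : ℕ, ∏ p ∈ n.primeFactors, (1 + (k : ℝ) / p) = ∑ s ∈ n.primeFactors.powerset, w s := by
    intro n
    rw [prod_one_add]
  set PP' := (BB H).primeFactors.powerset with hPP
  have hsub : ∀ h ∈ Icc 1 H, (b h).primeFactors.powerset ⊆ PP' := by
    intro h hh
    apply powerset_mono.2
    apply Nat.primeFactors_mono _ (BB_pos H).ne'
    exact dvd_prod_of_mem _ hh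
  set A : Finset ℕ → Finset ℕ := fun s => (Icc 1 H).filter (fun h => s ⊆ (b h).primeFactors) with hA
  have h1 : ∑ h ∈ Icc 1 H, ∏ p ∈ (b h).primeFactors, (1 + (k : ℝ) / p) = ∑ s ∈ PP', w s * (A s).card := by
    have h2 : ∀ h ∈ Icc 1 H, ∏ p ∈ (b h).primeFactors, (1 + (k : ℝ) / p) =
        ∑ s ∈ PP', if s ⊆ (b h).primeFactors then w s else 0 := by
      intro h hh
      rw [hprod, ← sum_filter]
      congr 1
      ext s
      rw [mem_powerset, mem_filter]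
      constructor
      · intro hs; exact ⟨hsub h hh (mem_powerset.2 hs), hs⟩
      · intro hs; exact hs.2
    rw [sum_congr rfl h2, sum_comm]
    apply sum_congr rfl
    intro s _
    rw [← sum_filter, sum_const, nsmul_eq_mul, mul_comm]
  rw [h1]
  have h2 : ∀ s ∈ PP', w s * (A s).card ≤ ∑ i ∈ range (H + 1),
      (if s ∈ (BB (2 ^ (i + 1))).primeFactors.powerset then w s * (H * (1 / 2 : ℝ) ^ i) else 0) := by
    intro s _
    rcases (A s).eq_empty_or_nonempty with h0 | h0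
    · rw [h0, card_empty, Nat.cast_zero, mul_zero]
      apply sum_nonneg
      intro i _
      split_ifs
      · have := hw0 s; positivity
      · exact le_rfl
    · set z := (A s).min' h0 with hz
      have hzA : z ∈ A s := min'_mem _ _
      have hzA' := hzA
      rw [hA] at hzA'
      simp only [mem_filter, mem_Icc] at hzA'
      obtain ⟨⟨hz1, hzH⟩, hzs⟩ := hzA'
      have hcard : (A s).card ≤ H / z := by
        apply card_closed H z hz1 (A s) (filter_subset _ _) (fun a ha => min'_le _ _ ha)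
        intro a ha a' ha' hlt
        rw [hA] at ha ha' ⊢
        simp only [mem_filter, mem_Icc] at ha ha' ⊢
        refine ⟨⟨by omega, by omega⟩, fun p hp => ?_⟩
        have h3 := ha.2 hp
        have h4 := ha'.2 hp
        rw [Nat.mem_primeFactors] at h3 h4 ⊢
        refine ⟨h3.1, dvd_b_sub hlt.le h4.2.1 h3.2.1, ?_⟩
        have := b_pos (show 1 ≤ a' - a by omega)
        omega
      set i := Nat.log 2 z with hi
      have hi1 : 2 ^ i ≤ z := Nat.pow_log_le_self 2 (by omega)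
      have hi2 : z < 2 ^ (i + 1) := Nat.lt_pow_succ_log_self (by norm_num) z
      have hiH : i < H + 1 := by
        have h3 : i < 2 ^ i := Nat.lt_two_pow_self
        omega
      have hs : s ∈ (BB (2 ^ (i + 1))).primeFactors.powerset := by
        rw [mem_powerset]
        refine hzs.trans ?_
        apply Nat.primeFactors_mono _ (BB_pos _).ne'
        exact dvd_prod_of_mem _ (mem_Icc.2 ⟨hz1, hi2.le⟩)
      have h3 : ((A s).card : ℝ) ≤ H * (1 / 2 : ℝ) ^ i := by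
        have h4 : ((A s).card : ℝ) ≤ ((H / z : ℕ) : ℝ) := by exact_mod_cast hcard
        have h5 : ((H / z : ℕ) : ℝ) ≤ (H : ℝ) / z := Nat.cast_div_le
        have h6 : (2:ℝ) ^ i ≤ z := by exact_mod_cast hi1
        have h7 : (H : ℝ) / z ≤ H / 2 ^ i := by
          apply div_le_div_of_nonneg_left (Nat.cast_nonneg _) (by positivity) h6
        calc ((A s).card : ℝ) ≤ H / 2 ^ i := h4.trans (h5.trans h7)
          _ = _ := by rw [one_div, inv_pow, div_eq_mul_inv]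
      refine le_trans ?_ (single_le_sum (f := fun i => if s ∈ (BB (2 ^ (i + 1))).primeFactors.powerset then
        w s * (H * (1 / 2 : ℝ) ^ i) else 0) ?_ (mem_range.2 hiH))
      · simp only [if_pos hs]
        exact mul_le_mul_of_nonneg_left h3 (hw0 s)
      · intro j _
        have := hw0 s
        split_ifs
        · positivity
        · exact le_rfl
  refine (sum_le_sum h2).trans ?_
  rw [sum_comm]
  have h3 : ∀ i ∈ range (H + 1), ∑ s ∈ PP', (if s ∈ (BB (2 ^ (i + 1))).primeFactors.powerset then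
      w s * (H * (1 / 2 : ℝ) ^ i) else 0) ≤ H * (C₁ ^ k * (2 * ((((i + 1 : ℕ) : ℝ)) ^ k * (1 / 2 : ℝ) ^ (i + 1)))) := by
    intro i _
    rw [← sum_filter]
    have h4 : ∑ s ∈ PP'.filter (fun s => s ∈ (BB (2 ^ (i + 1))).primeFactors.powerset), w s * (H * (1 / 2 : ℝ) ^ i) ≤
        ∑ s ∈ (BB (2 ^ (i + 1))).primeFactors.powerset, w s * (H * (1 / 2 : ℝ) ^ i) := by
      apply sum_le_sum_of_subset_of_nonneg
      · intro s hs; exact (mem_filter.1 hs).2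
      · intro s _ _
        have := hw0 s
        positivity
    refine h4.trans ?_
    rw [← sum_mul, ← hprod]
    have h5 := prod_k_le k (BB (2 ^ (i + 1))) (BB_pos _)
    have h6 : GG (BB (2 ^ (i + 1))) ^ k ≤ (C₁ * ((i + 1 : ℕ) : ℝ)) ^ k :=
      pow_le_pow_left₀ (GG_nonneg _) (hGG i) k
    calc (∏ p ∈ (BB (2 ^ (i + 1))).primeFactors, (1 + (k : ℝ) / p)) * (H * (1 / 2 : ℝ) ^ i) ≤
        (C₁ * ((i + 1 : ℕ) : ℝ)) ^ k * (H * (1 / 2 : ℝ) ^ i) :=
          mul_le_mul_of_nonneg_right (h5.trans h6) (by positivity)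
      _ = _ := by rw [mul_pow, pow_succ (1 / 2 : ℝ) i]; ring
  refine (sum_le_sum h3).trans ?_
  rw [← mul_sum, ← mul_sum, ← mul_sum]
  have h4 : ∑ i ∈ range (H + 1), (((i + 1 : ℕ) : ℝ)) ^ k * (1 / 2 : ℝ) ^ (i + 1) ≤ Sg := by
    have h5 : ∑ i ∈ range (H + 1), (((i + 1 : ℕ) : ℝ)) ^ k * (1 / 2 : ℝ) ^ (i + 1) =
        ∑ i ∈ (range (H + 1)).image (fun i => i + 1), ((i : ℕ) : ℝ) ^ k * (1 / 2 : ℝ) ^ i := by
      rw [sum_image]
      intro a _ a' _ h; simpa using h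
    rw [h5, hSg]
    exact hsum.sum_le_tsum _ (fun i _ => by positivity)
  have hH0 : (0:ℝ) ≤ H := Nat.cast_nonneg _
  calc (H : ℝ) * (C₁ ^ k * (2 * ∑ i ∈ range (H + 1), (((i + 1 : ℕ) : ℝ)) ^ k * (1 / 2 : ℝ) ^ (i + 1))) ≤
      H * (C₁ ^ k * (2 * Sg)) := by gcongr
    _ ≤ (C₁ ^ k * (2 * Sg) + 1) * H := by nlinarith

/-- the eighth moment of `b h / φ (b h)` -/
lemma rom8 : ∃ C : ℝ, 0 < C ∧ ∀ H : ℕ, ∑ h ∈ Icc 1 H, GG (b h) ^ 8 ≤ C * H := by
  obtain ⟨C, hC, h⟩ := rom 510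
  refine ⟨C, hC, fun H => le_trans ?_ (h H)⟩
  apply sum_le_sum
  intro x hx
  have hx0 : 0 < b x := b_pos (mem_Icc.1 hx).1
  rw [GG_eq_prod hx0, ← prod_pow]
  apply Finset.prod_le_prod
  · intro p hp
    have hpp := Nat.prime_of_mem_primeFactors hp
    have hp2 : (2:ℝ) ≤ p := by exact_mod_cast hpp.two_le
    have hx2 : (p:ℝ)⁻¹ ≤ 1 / 2 := by
      rw [inv_eq_one_div]
      exact one_div_le_one_div_of_le (by norm_num) hp2
    have : 0 ≤ 1 - (p:ℝ)⁻¹ := by linarith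
    positivity
  · intro p hp
    have hpp := Nat.prime_of_mem_primeFactors hp
    have hp2 : (2:ℝ) ≤ p := by exact_mod_cast hpp.two_le
    have hx0 : 0 < (p:ℝ)⁻¹ := by positivity
    have hx2 : (p:ℝ)⁻¹ ≤ 1 / 2 := by
      rw [inv_eq_one_div]
      exact one_div_le_one_div_of_le (by norm_num) hp2
    set u : ℝ := 2 * (p:ℝ)⁻¹ with hu
    have hu0 : 0 ≤ u := by positivity
    have hu1 : u ≤ 1 := by linarith
    have h1 : (1 - (p:ℝ)⁻¹)⁻¹ ≤ 1 + u := by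
      rw [inv_le_iff_one_le_mul₀ (by linarith)]
      rw [hu]
      nlinarith
    have h2 : ∀ n : ℕ, 1 ≤ n → u ^ n ≤ u := fun n hn => by
      calc u ^ n ≤ u ^ 1 := pow_le_pow_of_le_one hu0 hu1 hn
        _ = u := pow_one u
    have h3 : (1 + u) ^ 8 ≤ 1 + 255 * u := by
      have e : (1 + u) ^ 8 = 1 + 8 * u + 28 * u ^ 2 + 56 * u ^ 3 + 70 * u ^ 4 + 56 * u ^ 5 + 28 * u ^ 6 + 8 * u ^ 7 +
          u ^ 8 := by ring
      rw [e]
      have := h2 2 (by norm_num)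
      have := h2 3 (by norm_num)
      have := h2 4 (by norm_num)
      have := h2 5 (by norm_num)
      have := h2 6 (by norm_num)
      have := h2 7 (by norm_num)
      have := h2 8 (by norm_num)
      linarith
    have h4 : 0 ≤ (1 - (p:ℝ)⁻¹)⁻¹ := by
      have : 0 ≤ 1 - (p:ℝ)⁻¹ := by linarith
      positivity
    calc ((1 - (p:ℝ)⁻¹)⁻¹) ^ 8 ≤ (1 + u) ^ 8 := by gcongr
      _ ≤ 1 + 255 * u := h3
      _ = _ := by rw [hu]; push_cast; ring

end Pool.Agent.Helper24K9.PD
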