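import Mathlib
import Pool.Agent.Helper24K9.PD.Rom
import Pool.Agent.Helper24K9.UQ.Crt
import Pool.Agent.Helper24K9.UQ.Loc
import Pool.Agent.H373R2.BH.Local

set_option autoImplicit false

/-! The second moment over the classes for the forms `8 d_m² j + v`. -/

open Finset

namespace Pool.Agent.Helper24K9.PD

open Pool.Agent.Erdos456 Pool.Agent.Erdos456.Mert Pool.Agent.W218.HF Pool.Agent.Helper24K9.LI

/-- two different forms: the local count -/
lemma loc_pair {p : ℕ} (hp : p.Prime) (G₁ G₂ H₁ H₂ : ℤ) (h1 : ¬ (p : ℤ) ∣ G₁) (h2 : ¬ (p : ℤ) ∣ G₂)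
    (h3 : ¬ (p : ℤ) ∣ G₁ * H₂ - G₂ * H₁) :
    ((range p).filter (fun r : ℕ => ¬ (p : ℤ) ∣ (r : ℤ) * G₁ + H₁ ∧ ¬ (p : ℤ) ∣ (r : ℤ) * G₂ + H₂)).card + 2 ≤ p := by
  classical
  have e1 := UQ.root_exists hp G₁ H₁ h1
  have e2 := UQ.root_exists hp G₂ H₂ h2
  rw [Nat.one_le_iff_ne_zero, ← Nat.pos_iff_ne_zero, card_pos] at e1 e2
  obtain ⟨r₁, hr₁⟩ := e1
  obtain ⟨r₂, hr₂⟩ := e2
  rw [mem_filter] at hr₁ hr₂
  have hne : r₁ ≠ r₂ := by
    intro h
    rw [h] at hr₁
    apply h3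
    have h5 := dvd_sub (hr₂.2.mul_left G₁) (hr₁.2.mul_left G₂)
    have e : G₁ * ((r₂ : ℤ) * G₂ + H₂) - G₂ * ((r₂ : ℤ) * G₁ + H₁) = G₁ * H₂ - G₂ * H₁ := by ring
    rwa [e] at h5
  have hsub : (range p).filter (fun r : ℕ => ¬ (p : ℤ) ∣ (r : ℤ) * G₁ + H₁ ∧ ¬ (p : ℤ) ∣ (r : ℤ) * G₂ + H₂) ⊆
      (range p) \ {r₁, r₂} := by
    intro r hr
    rw [mem_filter] at hr
    rw [mem_sdiff, mem_insert, mem_singleton]
    refine ⟨hr.1, ?_⟩
    rintro (rfl | rfl)
    · exact hr.2.1 hr₁.2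
    · exact hr.2.2 hr₂.2
  have h5 := card_le_card hsub
  rw [card_sdiff_of_subset (by
    intro x hx
    rw [mem_insert, mem_singleton] at hx
    rcases hx with rfl | rfl
    · exact hr₁.1
    · exact hr₂.1), card_range, card_pair hne] at h5
  have := hp.two_le
  omega

lemma sum_inj (T : Finset ℕ) (f : ℕ → ℕ) (N : ℕ) (Φ : ℕ → ℝ) (hΦ : ∀ h, 0 ≤ Φ h) (hf : ∀ t ∈ T, 1 ≤ f t ∧ f t ≤ N)
    (hinj : ∀ t ∈ T, ∀ t' ∈ T, f t = f t' → t = t') : ∑ t ∈ T, Φ (f t) ≤ ∑ h ∈ Icc 1 N, Φ h := by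
  rw [← sum_image (f := Φ) (g := f) (s := T) (fun t ht t' ht' h => hinj t ht t' ht' h)]
  apply sum_le_sum_of_subset_of_nonneg
  · intro x hx
    rw [mem_image] at hx
    obtain ⟨t, ht, rfl⟩ := hx
    exact mem_Icc.2 (hf t ht)
  · intro x _ _; exact hΦ x

lemma sum_union_le (S T : Finset ℕ) (f : ℕ → ℝ) (hf : ∀ t, 0 ≤ f t) :
    ∑ t ∈ S ∪ T, f t ≤ ∑ t ∈ S, f t + ∑ t ∈ T, f t := by
  rw [← sum_union_inter]
  have : 0 ≤ ∑ t ∈ S ∩ T, f t := sum_nonneg fun t _ => hf t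
  linarith

/-- the coefficient of `i` in the form `8 (c + q i) (d m)² + v` -/
def g (q m : ℕ) : ℕ := 8 * q * d m ^ 2

/-- the constant coefficient -/
def h (c : ℕ) (v : ℤ) (m : ℕ) : ℤ := 8 * c * (d m : ℤ) ^ 2 + v

lemma gprod_le (Q : Finset ℕ) (D : ℕ) (hD : 0 < D) (hQ : ∀ p ∈ Q, p.Prime) :
    ∏ p ∈ Q.filter (fun p => p ∣ D), (1 - (p : ℝ)⁻¹)⁻¹ ≤ GG D := by
  rw [GG_eq_prod hD]
  apply prod_le_prod_of_subset_of_one_le
  · intro p hp
    rw [mem_filter] at hp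
    rw [Nat.mem_primeFactors]
    exact ⟨hQ p hp.1, hp.2, hD.ne'⟩
  · intro p hp
    exact zero_le_one.trans (factor_ge_one (hQ p (mem_filter.1 hp).1))
  · intro p hp _
    exact factor_ge_one (Nat.prime_of_mem_primeFactors hp)

/-- one pair -/
lemma pair_le (q : ℕ) (hq : 0 < q) (c : ℕ) (v : ℤ) (hv : v ≠ 0) (Q : Finset ℕ) (hQ : ∀ p ∈ Q, p.Prime) {s t : ℕ} (hs : 1 ≤ s) (ht : 1 ≤ t) (hst : t < s) :
    (((range (PQ Q)).filter (fun r : ℕ => ∀ p ∈ Q, ¬ (p : ℤ) ∣ (r : ℤ) * g q s + h c v s ∧ ¬ (p : ℤ) ∣ (r : ℤ) * g q t + h c v t)).card : ℝ) ≤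
      PQ Q * WQ Q ^ 2 * ((GG q * GG v.natAbs * GG 2) ^ 2 *
        (GG (b (2 * s)) ^ 8 + GG (b (2 * t)) ^ 8 + GG (b (s + t)) ^ 8 + GG (b (s - t)) ^ 8)) := by
  classical
  set D : ℕ := q * v.natAbs * (2 * (d s * (d t * (b (s + t) * b (s - t))))) with hD
  have hv0 : 0 < v.natAbs := Int.natAbs_pos.2 hv
  have hds := d_pos s
  have hdt := d_pos t
  have hb1 : 0 < b (s + t) := b_pos (by omega)
  have hb2 : 0 < b (s - t) := b_pos (by omega)
  have hD0 : 0 < D := by rw [hD]; positivity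
  have h1 := Pool.Agent.H373R2.BH.crt_count Q hQ
    (fun p r => ¬ (p : ℤ) ∣ (r : ℤ) * g q s + h c v s ∧ ¬ (p : ℤ) ∣ (r : ℤ) * g q t + h c v t)
  have h2 : ((range (PQ Q)).filter (fun r : ℕ => ∀ p ∈ Q, ¬ (p : ℤ) ∣ (r : ℤ) * g q s + h c v s ∧ ¬ (p : ℤ) ∣ (r : ℤ) * g q t + h c v t)).card =
      ∏ p ∈ Q, ((range p).filter (fun r : ℕ => ¬ (p : ℤ) ∣ (r : ℤ) * g q s + h c v s ∧ ¬ (p : ℤ) ∣ (r : ℤ) * g q t + h c v t)).card := by
    rw [← h1]
    unfold PQ
    congr 1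
    apply filter_congr
    intro r _
    apply forall_congr'; intro p
    apply forall_congr'; intro hp
    have hmod : ∀ x y : ℤ, (p : ℤ) ∣ ((r % p : ℕ) : ℤ) * x + y ↔ (p : ℤ) ∣ (r : ℤ) * x + y := by
      intro x y
      apply UQ.dvd_iff_of_modEq
      exact Int.ModEq.add (Int.ModEq.mul ((Int.natCast_modEq_iff).2 (Nat.mod_modEq r p)) rfl) rfl
    rw [hmod, hmod]
  rw [h2]
  push_cast
  have hdiff : ((g q s : ℕ) : ℤ) * h c v t - g q t * h c v s = 64 * (q * (v * (b (s + t) * b (s - t)))) := by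
    unfold g h
    push_cast
    linear_combination 8 * q * v * diff_sq hst.le
  have h3 : ∀ p ∈ Q, (((range p).filter (fun r : ℕ => ¬ (p : ℤ) ∣ (r : ℤ) * g q s + h c v s ∧ ¬ (p : ℤ) ∣ (r : ℤ) * g q t + h c v t)).card : ℝ) ≤
      (p : ℝ) * (1 - 1 / (p : ℝ)) ^ 2 * (if p ∣ D then ((1 - (p : ℝ)⁻¹)⁻¹) ^ 2 else 1) := by
    intro p hp
    have hpp := hQ p hp
    have hp2 : (2:ℝ) ≤ p := by exact_mod_cast hpp.two_le
    have hp0 : (0:ℝ) < p := by linarith
    split_ifs with hpD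
    · have h4 : (((range p).filter (fun r : ℕ => ¬ (p : ℤ) ∣ (r : ℤ) * g q s + h c v s ∧ ¬ (p : ℤ) ∣ (r : ℤ) * g q t + h c v t)).card : ℝ) ≤ p := by
        have := card_le_card (filter_subset (fun r : ℕ => ¬ (p : ℤ) ∣ (r : ℤ) * g q s + h c v s ∧ ¬ (p : ℤ) ∣ (r : ℤ) * g q t + h c v t) (range p))
        rw [card_range] at this
        exact_mod_cast this
      refine h4.trans (le_of_eq ?_)
      have h5 : 1 - (p : ℝ)⁻¹ ≠ 0 := by
        have : (p : ℝ)⁻¹ ≤ 1 / 2 := by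
          rw [inv_eq_one_div]; exact one_div_le_one_div_of_le (by norm_num) hp2
        intro h; linarith
      rw [one_div, mul_assoc, ← mul_pow, mul_inv_cancel₀ h5, one_pow, mul_one]
    · rw [mul_one]
      have hpi := Nat.prime_iff_prime_int.1 hpp
      have hnd : ∀ x : ℕ, x ∣ D → ¬ p ∣ x := fun x hx h => hpD (h.trans hx)
      have hp2' : ¬ p ∣ 2 := hnd 2 (by rw [hD]; exact (dvd_mul_right _ _).mul_left _)
      have hpv : ¬ (p : ℤ) ∣ v := by
        intro h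
        exact hnd v.natAbs (by rw [hD]; exact (dvd_mul_left _ _).mul_right _) (Int.natCast_dvd.1 h)
      have hpq : ¬ (p : ℤ) ∣ (q : ℤ) := by
        intro h
        exact hnd q (by rw [hD]; exact (dvd_mul_right _ _).mul_right _) (by exact_mod_cast h)
      have hpow : ∀ k : ℕ, ¬ (p : ℤ) ∣ 2 ^ k := by
        intro k h
        have h' := hpi.dvd_of_dvd_pow h
        exact hp2' (by exact_mod_cast h')
      have hgs : ∀ m, d m ∣ D → ¬ (p : ℤ) ∣ ((g q m : ℕ) : ℤ) := by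
        intro m hm h
        unfold g at h
        push_cast at h
        rcases hpi.dvd_or_dvd h with h5 | h5
        · rcases hpi.dvd_or_dvd h5 with h6 | h6
          · exact hpow 3 (by norm_num; exact h6)
          · exact hpq h6
        · have h6 := hpi.dvd_of_dvd_pow h5
          exact hnd (d m) hm (by exact_mod_cast h6)
      have hpd : ¬ (p : ℤ) ∣ ((g q s : ℕ) : ℤ) * h c v t - g q t * h c v s := by
        rw [hdiff]
        intro h
        rcases hpi.dvd_or_dvd h with h5 | h5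
        · exact hpow 6 (by norm_num; exact h5)
        rcases hpi.dvd_or_dvd h5 with h5 | h5
        · exact hpq h5
        rcases hpi.dvd_or_dvd h5 with h5 | h5
        · exact hpv h5
        · rcases hpi.dvd_or_dvd h5 with h6 | h6
          · exact hnd (b (s + t)) (by
              rw [hD]
              exact ((((dvd_mul_right _ _).mul_left _).mul_left _).mul_left _).mul_left _) (by exact_mod_cast h6)
          · exact hnd (b (s - t)) (by
              rw [hD]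
              exact ((((dvd_mul_left _ _).mul_left _).mul_left _).mul_left _).mul_left _) (by exact_mod_cast h6)
      have h4 := loc_pair hpp (g q s) (g q t) (h c v s) (h c v t)
        (hgs s (by rw [hD]; exact ((dvd_mul_right _ _).mul_left _).mul_left _))
        (hgs t (by rw [hD]; exact (((dvd_mul_right _ _).mul_left _).mul_left _).mul_left _)) hpd
      have h5 : (((range p).filter (fun r : ℕ => ¬ (p : ℤ) ∣ (r : ℤ) * g q s + h c v s ∧ ¬ (p : ℤ) ∣ (r : ℤ) * g q t + h c v t)).card : ℝ) + 2 ≤ p := by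
        exact_mod_cast h4
      have h6 : (p : ℝ) * (1 - 1 / (p : ℝ)) ^ 2 = p - 2 + 1 / p := by field_simp; ring
      have h7 : 0 < 1 / (p : ℝ) := by positivity
      linarith
  refine (Finset.prod_le_prod (fun p _ => by positivity) h3).trans ?_
  rw [prod_mul_distrib, prod_mul_distrib, prod_pow, ← prod_filter, prod_pow]
  have e1 : (∏ p ∈ Q, (p : ℝ)) = PQ Q := by unfold PQ; push_cast; rfl
  have e2 : ∏ p ∈ Q, (1 - 1 / (p : ℝ)) = WQ Q := rfl
  rw [e1, e2]
  apply mul_le_mul_of_nonneg_left _ (by positivity)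
  have h4 := gprod_le Q D hD0 hQ
  have h40 : 0 ≤ ∏ p ∈ Q.filter (fun p => p ∣ D), (1 - (p : ℝ)⁻¹)⁻¹ :=
    prod_nonneg fun p hp => zero_le_one.trans (factor_ge_one (hQ p (mem_filter.1 hp).1))
  have h5 : GG D ≤ (GG q * GG v.natAbs * GG 2) * (GG (b (2 * s)) * (GG (b (2 * t)) * (GG (b (s + t)) * GG (b (s - t))))) := by
    have h6 : GG (d s) ≤ GG (b (2 * s)) := GG_mono_dvd (b_pos (by omega)) (d_dvd_b s)
    have h7 : GG (d t) ≤ GG (b (2 * t)) := GG_mono_dvd (b_pos (by omega)) (d_dvd_b t)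
    have n1 : 0 ≤ GG q * GG v.natAbs := mul_nonneg (GG_nonneg _) (GG_nonneg _)
    have n2 := GG_nonneg 2
    have n3 := GG_nonneg (d s)
    have n4 := GG_nonneg (d t)
    have n5 := GG_nonneg (b (s + t))
    have n6 := GG_nonneg (b (s - t))
    have n7 := GG_nonneg (b (2 * s))
    have n8 := GG_nonneg (b (2 * t))
    calc GG D ≤ (GG q * GG v.natAbs) * GG (2 * (d s * (d t * (b (s + t) * b (s - t))))) :=
          (GG_mul_le _ _).trans (mul_le_mul_of_nonneg_right (GG_mul_le _ _) (GG_nonneg _))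
      _ ≤ (GG q * GG v.natAbs) * (GG 2 * GG (d s * (d t * (b (s + t) * b (s - t))))) := by gcongr; exact GG_mul_le _ _
      _ ≤ (GG q * GG v.natAbs) * (GG 2 * (GG (d s) * GG (d t * (b (s + t) * b (s - t))))) := by gcongr; exact GG_mul_le _ _
      _ ≤ (GG q * GG v.natAbs) * (GG 2 * (GG (d s) * (GG (d t) * GG (b (s + t) * b (s - t))))) := by gcongr; exact GG_mul_le _ _
      _ ≤ (GG q * GG v.natAbs) * (GG 2 * (GG (b (2 * s)) * (GG (b (2 * t)) * (GG (b (s + t)) * GG (b (s - t)))))) := by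
          have n9 : GG (b (s + t) * b (s - t)) ≤ GG (b (s + t)) * GG (b (s - t)) := GG_mul_le _ _
          have n10 : 0 ≤ GG (b (s + t) * b (s - t)) := GG_nonneg _
          apply mul_le_mul_of_nonneg_left _ n1
          apply mul_le_mul_of_nonneg_left _ n2
          apply mul_le_mul h6 _ (mul_nonneg n4 n10) n7
          exact mul_le_mul h7 n9 n10 n8
      _ = _ := by ring
  have hkey : ∀ x y z w : ℝ, (x * (y * (z * w))) ^ 2 ≤ x ^ 8 + y ^ 8 + z ^ 8 + w ^ 8 := by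
    intro x y z w
    have k1 : (x * y) ^ 4 ≤ (x ^ 8 + y ^ 8) / 2 := by nlinarith [sq_nonneg (x ^ 4 - y ^ 4)]
    have k2 : (z * w) ^ 4 ≤ (z ^ 8 + w ^ 8) / 2 := by nlinarith [sq_nonneg (z ^ 4 - w ^ 4)]
    have k3 : (x * (y * (z * w))) ^ 2 ≤ ((x * y) ^ 4 + (z * w) ^ 4) / 2 := by
      nlinarith [sq_nonneg ((x * y) ^ 2 - (z * w) ^ 2)]
    have k4 : 0 ≤ x ^ 8 := by positivity
    have k5 : 0 ≤ y ^ 8 := by positivity
    have k6 : 0 ≤ z ^ 8 := by positivity
    have k7 : 0 ≤ w ^ 8 := by positivity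
    linarith
  calc (∏ p ∈ Q.filter (fun p => p ∣ D), (1 - (p : ℝ)⁻¹)⁻¹) ^ 2 ≤ GG D ^ 2 := pow_le_pow_left₀ h40 h4 2
    _ ≤ ((GG q * GG v.natAbs * GG 2) * (GG (b (2 * s)) * (GG (b (2 * t)) * (GG (b (s + t)) * GG (b (s - t)))))) ^ 2 :=
        pow_le_pow_left₀ (GG_nonneg _) h5 2
    _ = (GG q * GG v.natAbs * GG 2) ^ 2 * (GG (b (2 * s)) * (GG (b (2 * t)) * (GG (b (s + t)) * GG (b (s - t))))) ^ 2 := by
        rw [mul_pow]
    _ ≤ _ := mul_le_mul_of_nonneg_left (hkey _ _ _ _) (by positivity)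

/-- **The second moment.** -/
lemma second (q : ℕ) (hq : 0 < q) (c : ℕ) (v : ℤ) (hv : v ≠ 0) : ∃ C : ℝ, 0 < C ∧ ∀ (M : ℕ) (T : Finset ℕ), T ⊆ Icc 1 M →
    ∀ Q : Finset ℕ, (∀ p ∈ Q, p.Prime) →
    ∑ r ∈ range (PQ Q), ((T.filter (fun t => ∀ p ∈ Q, ¬ (p : ℤ) ∣ (r : ℤ) * g q t + h c v t)).card : ℝ) ^ 2 ≤
      PQ Q * T.card + C * (PQ Q * WQ Q ^ 2 * M ^ 2) := by
  classical
  obtain ⟨C, hC, hrom⟩ := rom8
  set C₀ : ℝ := (GG q * GG v.natAbs * GG 2) ^ 2 with hC₀
  have hC₀0 : 0 ≤ C₀ := sq_nonneg _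
  refine ⟨20 * C * C₀ + 1, by positivity, fun M T hT Q hQ => ?_⟩
  have hW0 : 0 < WQ Q := WQ_pos hQ
  set Φ : ℕ → ℝ := fun h => GG (b h) ^ 8 with hΦ
  have hΦ0 : ∀ h, 0 ≤ Φ h := fun h => by positivity
  set R : ℝ := ∑ h ∈ Icc 1 (2 * M), Φ h with hR
  have hR0 : 0 ≤ R := sum_nonneg fun h _ => hΦ0 h
  have hRM : R ≤ C * (2 * M) := by
    have := hrom (2 * M)
    push_cast at this
    exact this
  have hTb : ∀ t ∈ T, 1 ≤ t ∧ t ≤ M := fun t ht => mem_Icc.1 (hT ht)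
  have hTM : (T.card : ℝ) ≤ M := by
    have := card_le_card hT
    rw [Nat.card_Icc, Nat.add_sub_cancel] at this
    exact_mod_cast this
  set nn : ℕ → ℕ → ℝ := fun s t => (((range (PQ Q)).filter (fun r : ℕ =>
    ∀ p ∈ Q, ¬ (p : ℤ) ∣ (r : ℤ) * g q s + h c v s ∧ ¬ (p : ℤ) ∣ (r : ℤ) * g q t + h c v t)).card : ℝ) with hnn
  have hsym : ∀ s t, nn s t = nn t s := by
    intro s t
    simp only [hnn]
    congr 2
    apply filter_congr
    intro r _
    constructor <;> intro h p hp <;> exact ⟨(h p hp).2, (h p hp).1⟩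
  -- opening the square
  have h1 : ∑ r ∈ range (PQ Q), ((T.filter (fun t => ∀ p ∈ Q, ¬ (p : ℤ) ∣ (r : ℤ) * g q t + h c v t)).card : ℝ) ^ 2 =
      ∑ s ∈ T, ∑ t ∈ T, nn s t := by
    have h2 : ∀ r ∈ range (PQ Q), ((T.filter (fun t => ∀ p ∈ Q, ¬ (p : ℤ) ∣ (r : ℤ) * g q t + h c v t)).card : ℝ) ^ 2 =
        ∑ s ∈ T, ∑ t ∈ T, if (∀ p ∈ Q, ¬ (p : ℤ) ∣ (r : ℤ) * g q s + h c v s ∧ ¬ (p : ℤ) ∣ (r : ℤ) * g q t + h c v t) then (1:ℝ) else 0 := by
      intro r _
      rw [sq, card_filter]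
      push_cast
      rw [sum_mul_sum]
      apply sum_congr rfl
      intro s _
      apply sum_congr rfl
      intro t _
      by_cases h3 : ∀ p ∈ Q, ¬ (p : ℤ) ∣ (r : ℤ) * g q s + h c v s
      · by_cases h4 : ∀ p ∈ Q, ¬ (p : ℤ) ∣ (r : ℤ) * g q t + h c v t
        · rw [if_pos h3, if_pos h4, if_pos (fun p hp => ⟨h3 p hp, h4 p hp⟩), one_mul]
        · have h5 : ¬ (∀ p ∈ Q, ¬ (p : ℤ) ∣ (r : ℤ) * g q s + h c v s ∧ ¬ (p : ℤ) ∣ (r : ℤ) * g q t + h c v t) :=
            fun h => h4 fun p hp => (h p hp).2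
          rw [if_pos h3, if_neg h4, if_neg h5, mul_zero]
      · have h5 : ¬ (∀ p ∈ Q, ¬ (p : ℤ) ∣ (r : ℤ) * g q s + h c v s ∧ ¬ (p : ℤ) ∣ (r : ℤ) * g q t + h c v t) :=
          fun h => h3 fun p hp => (h p hp).1
        rw [if_neg h3, if_neg h5, zero_mul]
    rw [sum_congr rfl h2, sum_comm]
    apply sum_congr rfl
    intro s _
    rw [sum_comm]
    apply sum_congr rfl
    intro t _
    simp only [hnn, card_filter]
    push_cast
    rfl
  rw [h1]
  -- the pairs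
  have hoff : ∀ s ∈ T, ∀ t ∈ T, t < s → nn s t ≤ PQ Q * WQ Q ^ 2 * (C₀ * (Φ (2 * s) + Φ (2 * t) + Φ (s + t) + Φ (s - t))) := by
    intro s hs t ht hst
    exact pair_le q hq c v hv Q hQ (hTb s hs).1 (hTb t ht).1 hst
  have hdiag : ∀ s, nn s s ≤ PQ Q := by
    intro s
    simp only [hnn]
    have := card_le_card (filter_subset (fun r : ℕ =>
      ∀ p ∈ Q, ¬ (p : ℤ) ∣ (r : ℤ) * g q s + h c v s ∧ ¬ (p : ℤ) ∣ (r : ℤ) * g q s + h c v s) (range (PQ Q)))
    rw [card_range] at this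
    exact_mod_cast this
  have hrow : ∀ s ∈ T, ∑ t ∈ T, nn s t ≤ PQ Q + PQ Q * WQ Q ^ 2 * C₀ * (2 * (M * Φ (2 * s)) + 8 * R) := by
    intro s hs
    have hb := hTb s hs
    have h2 : ∑ t ∈ T, nn s t ≤ nn s s + ∑ t ∈ T.filter (fun t => t < s), nn s t + ∑ t ∈ T.filter (fun t => s < t), nn s t := by
      have h3 : T ⊆ {s} ∪ (T.filter (fun t => t < s) ∪ T.filter (fun t => s < t)) := by
        intro t ht
        rw [mem_union, mem_singleton, mem_union, mem_filter, mem_filter]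
        rcases lt_trichotomy t s with h | h | h
        · right; left; exact ⟨ht, h⟩
        · left; exact h
        · right; right; exact ⟨ht, h⟩
      have hnn0 : ∀ t, 0 ≤ nn s t := fun t => Nat.cast_nonneg _
      refine (sum_le_sum_of_subset_of_nonneg h3 fun t _ _ => hnn0 t).trans ?_
      refine (sum_union_le _ _ _ hnn0).trans ?_
      rw [sum_singleton]
      have := sum_union_le (T.filter (fun t => t < s)) (T.filter (fun t => s < t)) (nn s) hnn0
      linarith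
    have hPW : 0 ≤ (PQ Q : ℝ) * WQ Q ^ 2 * C₀ := by positivity
    have hlow : ∑ t ∈ T.filter (fun t => t < s), nn s t ≤ PQ Q * WQ Q ^ 2 * C₀ * (M * Φ (2 * s) + 4 * R) := by
      have h3 : ∀ t ∈ T.filter (fun t => t < s), nn s t ≤ PQ Q * WQ Q ^ 2 * C₀ * (Φ (2 * s) + Φ (2 * t) + Φ (s + t) + Φ (s - t)) := by
        intro t ht
        rw [mem_filter] at ht
        refine (hoff s hs t ht.1 ht.2).trans (le_of_eq (by ring))
      refine (sum_le_sum h3).trans ?_
      rw [← mul_sum]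
      apply mul_le_mul_of_nonneg_left _ hPW
      rw [sum_add_distrib, sum_add_distrib, sum_add_distrib, sum_const, nsmul_eq_mul]
      have c1 : ((T.filter (fun t => t < s)).card : ℝ) * Φ (2 * s) ≤ M * Φ (2 * s) := by
        apply mul_le_mul_of_nonneg_right _ (hΦ0 _)
        refine le_trans ?_ hTM
        exact_mod_cast card_le_card (filter_subset (fun t => t < s) T)
      have c2 := sum_inj (T.filter (fun t => t < s)) (fun t => 2 * t) (2 * M) Φ hΦ0
        (fun t ht => by have := hTb t (mem_filter.1 ht).1; exact ⟨by omega, by omega⟩) (fun t _ t' _ h => by have h' := h; beta_reduce at h'; omega)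
      have c3 := sum_inj (T.filter (fun t => t < s)) (fun t => s + t) (2 * M) Φ hΦ0
        (fun t ht => by have := hTb t (mem_filter.1 ht).1; exact ⟨by omega, by omega⟩) (fun t _ t' _ h => by have h' := h; beta_reduce at h'; omega)
      have c4 := sum_inj (T.filter (fun t => t < s)) (fun t => s - t) (2 * M) Φ hΦ0
        (fun t ht => by
          have := hTb t (mem_filter.1 ht).1
          have := (mem_filter.1 ht).2
          exact ⟨by omega, by omega⟩) (fun t ht t' ht' h => by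
          have := (mem_filter.1 ht).2
          have := (mem_filter.1 ht').2
          have h' := h
          beta_reduce at h'
          omega)
      rw [← hR] at c2 c3 c4
      linarith
    have hup : ∑ t ∈ T.filter (fun t => s < t), nn s t ≤ PQ Q * WQ Q ^ 2 * C₀ * (M * Φ (2 * s) + 4 * R) := by
      have h3 : ∀ t ∈ T.filter (fun t => s < t), nn s t ≤ PQ Q * WQ Q ^ 2 * C₀ * (Φ (2 * s) + Φ (2 * t) + Φ (s + t) + Φ (t - s)) := by
        intro t ht
        rw [mem_filter] at ht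
        rw [hsym]
        refine (hoff t ht.1 s hs ht.2).trans (le_of_eq ?_)
        rw [add_comm t s]
        ring
      refine (sum_le_sum h3).trans ?_
      rw [← mul_sum]
      apply mul_le_mul_of_nonneg_left _ hPW
      rw [sum_add_distrib, sum_add_distrib, sum_add_distrib, sum_const, nsmul_eq_mul]
      have c1 : ((T.filter (fun t => s < t)).card : ℝ) * Φ (2 * s) ≤ M * Φ (2 * s) := by
        apply mul_le_mul_of_nonneg_right _ (hΦ0 _)
        refine le_trans ?_ hTM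
        exact_mod_cast card_le_card (filter_subset (fun t => s < t) T)
      have c2 := sum_inj (T.filter (fun t => s < t)) (fun t => 2 * t) (2 * M) Φ hΦ0
        (fun t ht => by have := hTb t (mem_filter.1 ht).1; exact ⟨by omega, by omega⟩) (fun t _ t' _ h => by have h' := h; beta_reduce at h'; omega)
      have c3 := sum_inj (T.filter (fun t => s < t)) (fun t => s + t) (2 * M) Φ hΦ0
        (fun t ht => by have := hTb t (mem_filter.1 ht).1; exact ⟨by omega, by omega⟩) (fun t _ t' _ h => by have h' := h; beta_reduce at h'; omega)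
      have c4 := sum_inj (T.filter (fun t => s < t)) (fun t => t - s) (2 * M) Φ hΦ0
        (fun t ht => by
          have := hTb t (mem_filter.1 ht).1
          have := (mem_filter.1 ht).2
          exact ⟨by omega, by omega⟩) (fun t ht t' ht' h => by
          have := (mem_filter.1 ht).2
          have := (mem_filter.1 ht').2
          have h' := h
          beta_reduce at h'
          omega)
      rw [← hR] at c2 c3 c4
      linarith
    have h3 := hdiag s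
    calc ∑ t ∈ T, nn s t ≤ nn s s + ∑ t ∈ T.filter (fun t => t < s), nn s t + ∑ t ∈ T.filter (fun t => s < t), nn s t := h2
      _ ≤ PQ Q + PQ Q * WQ Q ^ 2 * C₀ * (M * Φ (2 * s) + 4 * R) + PQ Q * WQ Q ^ 2 * C₀ * (M * Φ (2 * s) + 4 * R) := by
          linarith
      _ = _ := by ring
  refine (sum_le_sum hrow).trans ?_
  rw [sum_add_distrib, sum_const, nsmul_eq_mul, ← mul_sum, sum_add_distrib, ← mul_sum, ← mul_sum, sum_const, nsmul_eq_mul]
  have c2 := sum_inj T (fun t => 2 * t) (2 * M) Φ hΦ0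
    (fun t ht => by have := hTb t ht; exact ⟨by omega, by omega⟩) (fun t _ t' _ h => by have h' := h; beta_reduce at h'; omega)
  rw [← hR] at c2
  have hM0 : (0:ℝ) ≤ M := Nat.cast_nonneg _
  have h2 : 2 * (M * ∑ i ∈ T, Φ (2 * i)) + T.card * (8 * R) ≤ 20 * C * M ^ 2 := by
    calc 2 * (M * ∑ i ∈ T, Φ (2 * i)) + T.card * (8 * R) ≤ 2 * (M * R) + M * (8 * R) := by gcongr
      _ = 10 * M * R := by ring
      _ ≤ 10 * M * (C * (2 * M)) := by gcongr
      _ = _ := by ring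
  calc (T.card : ℝ) * PQ Q + PQ Q * WQ Q ^ 2 * C₀ * (2 * (M * ∑ i ∈ T, Φ (2 * i)) + T.card * (8 * R)) ≤
      T.card * PQ Q + PQ Q * WQ Q ^ 2 * C₀ * (20 * C * M ^ 2) := by gcongr
    _ ≤ PQ Q * T.card + (20 * C * C₀ + 1) * (PQ Q * WQ Q ^ 2 * M ^ 2) := by
        have : 0 ≤ (PQ Q : ℝ) * WQ Q ^ 2 * M ^ 2 := by positivity
        nlinarith

end Pool.Agent.Helper24K9.PD
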