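import Mathlib
import Pool.Agent.Helper24K9.LI.Lp
import Pool.Agent.Helper24K9.PD.Sec

set_option autoImplicit false

/-! The multipliers `j` for which some `8 j (d m)² + v` is a prime. -/

open Finset Filter Topology

namespace Pool.Agent.Helper24K9.PD

open Pool.Agent.Helper24K9.LI Pool.Agent.W218.HF Pool.Agent.Erdos456 Pool.Agent.Erdos456.Mert

/-- the period of the squares -/
lemma period (R : ℕ) (hR : 1 ≤ R) (m₀ : ℕ) : ∃ n₀ : ℕ, 1 ≤ n₀ ∧ ∀ m : ℕ, m % n₀ = m₀ % n₀ →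
    (R : ℤ) ∣ (d m : ℤ) ^ 2 - (d m₀ : ℤ) ^ 2 := by
  obtain ⟨n, hn, hRb⟩ := exists_dvd_b R hR
  have key : ∀ s t : ℕ, t ≤ s → s % n = t % n → (R : ℤ) ∣ (d s : ℤ) ^ 2 - (d t : ℤ) ^ 2 := by
    intro s t hst h
    have h1 : n ∣ s - t := (Nat.modEq_iff_dvd' hst).1 h.symm
    obtain ⟨i, hi⟩ := h1
    have h2 : R ∣ b (s - t) := by rw [hi]; exact dvd_b_mul hRb i
    rw [diff_sq hst]
    exact ((Int.natCast_dvd_natCast.2 h2).mul_left _).mul_left _
  refine ⟨n, hn, fun m hm => ?_⟩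
  rcases le_total m₀ m with h | h
  · exact key m m₀ h hm
  · have := key m₀ m h hm.symm
    rw [← dvd_neg] at this
    rwa [neg_sub] at this

/-- the coefficients stay coprime in the class of `m₀` -/
lemma coprime_class (q c : ℕ) (v : ℤ) (m₀ m : ℕ) (hco : IsCoprime ((g q m₀ : ℕ) : ℤ) (h c v m₀))
    (hm : ((8 * q * v.natAbs : ℕ) : ℤ) ∣ (d m : ℤ) ^ 2 - (d m₀ : ℤ) ^ 2) : IsCoprime ((g q m : ℕ) : ℤ) (h c v m) := by
  have e0 : ((g q m₀ : ℕ) : ℤ) = (8 * q) * (d m₀ : ℤ) ^ 2 := by unfold g; push_cast; ring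
  have e1 : ((g q m : ℕ) : ℤ) = (8 * q) * (d m : ℤ) ^ 2 := by unfold g; push_cast; ring
  rw [e0] at hco
  rw [e1]
  obtain ⟨k, hk⟩ := hm
  push_cast at hk
  have hdm : (d m : ℤ) ^ 2 = (d m₀ : ℤ) ^ 2 + 8 * q * |v| * k := by linarith
  apply IsCoprime.mul_left
  · have h1 := hco.of_mul_left_left
    have e2 : h c v m = h c v m₀ + (8 * q) * (8 * c * |v| * k) := by
      unfold h; rw [hdm]; ring
    rw [e2]
    exact h1.add_mul_left_right _
  · have h1 := hco.of_mul_left_right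
    have h2 : IsCoprime ((d m₀ : ℤ) ^ 2) v := by
      have e2 : v = h c v m₀ + (d m₀ : ℤ) ^ 2 * (-(8 * c)) := by unfold h; ring
      rw [e2]
      exact h1.add_mul_left_right _
    have h3 : IsCoprime ((d m : ℤ) ^ 2) v := by
      rcases abs_choice v with hv | hv
      · rw [hdm, hv]
        have e3 : (d m₀ : ℤ) ^ 2 + 8 * q * v * k = (d m₀ : ℤ) ^ 2 + v * (8 * q * k) := by ring
        rw [e3]
        exact h2.add_mul_left_left _
      · rw [hdm, hv]
        have e3 : (d m₀ : ℤ) ^ 2 + 8 * q * (-v) * k = (d m₀ : ℤ) ^ 2 + v * (-(8 * q * k)) := by ring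
        rw [e3]
        exact h2.add_mul_left_left _
    have e4 : h c v m = v + (d m : ℤ) ^ 2 * (8 * c) := by unfold h; ring
    rw [e4]
    exact h3.add_mul_left_right _

/-- the number of the `m ≤ M` in a residue class -/
lemma card_class (M n₀ a : ℕ) (hn : 1 ≤ n₀) : M / n₀ ≤ ((Icc 1 M).filter (fun m => m % n₀ = a % n₀)).card := by
  have h0 : (range (M / n₀)).card ≤ ((Icc 1 M).filter (fun m => m % n₀ = a % n₀)).card := by
    set s : ℕ := if a % n₀ = 0 then n₀ else a % n₀ with hs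
    have hlt : a % n₀ < n₀ := Nat.mod_lt _ hn
    have hs1 : 1 ≤ s ∧ s ≤ n₀ ∧ s % n₀ = a % n₀ := by
      rw [hs]
      split_ifs with h
      · refine ⟨hn, le_refl _, ?_⟩
        rw [Nat.mod_self, h]
      · exact ⟨by omega, hlt.le, Nat.mod_mod _ _⟩
    apply card_le_card_of_injOn (fun i => n₀ * i + s)
    · intro i hi
      rw [mem_coe, mem_range] at hi
      rw [mem_coe, mem_filter, mem_Icc]
      show (1 ≤ n₀ * i + s ∧ n₀ * i + s ≤ M) ∧ (n₀ * i + s) % n₀ = a % n₀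
      refine ⟨⟨by omega, ?_⟩, ?_⟩
      · have h1 : n₀ * (i + 1) ≤ n₀ * (M / n₀) := Nat.mul_le_mul_left _ hi
        have h2 := Nat.mul_div_le M n₀
        rw [mul_add, mul_one] at h1
        omega
      · rw [Nat.mul_add_mod]
        exact hs1.2.2
    · intro i _ j _ hij
      simp only at hij
      have : n₀ * i = n₀ * j := by omega
      exact Nat.eq_of_mul_eq_mul_left hn this
  rwa [card_range] at h0

lemma exists_root (n X : ℕ) (hn : 1 ≤ n) : ∃ z : ℕ, z ^ n ≤ X ∧ X < (z + 1) ^ n := by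
  refine ⟨Nat.findGreatest (fun z => z ^ n ≤ X) X, ?_, ?_⟩
  · exact Nat.findGreatest_spec (P := fun z => z ^ n ≤ X) (Nat.zero_le X) (by rw [zero_pow (by omega)]; exact Nat.zero_le _)
  · by_contra hcon
    push Not at hcon
    set z := Nat.findGreatest (fun z => z ^ n ≤ X) X with hz
    have h1 : z + 1 ≤ X := (Nat.le_self_pow (by omega) _).trans hcon
    exact Nat.findGreatest_is_greatest (P := fun z => z ^ n ≤ X) (show z < z + 1 by omega) h1 hcon

lemma ev_L (B δ c₃ : ℝ) (hδ : 0 < δ) (hc : 0 < c₃) (A : ℝ) : ∀ᶠ z : ℕ in atTop,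
    A ≤ Real.log z ∧ B ≤ Real.exp (Real.log z / 128) ∧ (Real.log (Real.log z)) ^ 2 ≤ c₃ ^ 2 * (δ * Real.log z) := by
  have hlt : Tendsto (fun n : ℕ => Real.log n) atTop atTop := Real.tendsto_log_atTop.comp tendsto_natCast_atTop_atTop
  refine (hlt.eventually_ge_atTop A).and (((Real.tendsto_exp_atTop.comp (hlt.atTop_div_const (by norm_num : (0:ℝ) < 128))).eventually_ge_atTop B).and ?_)
  have h1 : (fun x : ℝ => Real.log x ^ 2) =o[atTop] (fun x : ℝ => x) := by
    have := isLittleO_log_rpow_atTop (show (0:ℝ) < 1 / 2 by norm_num)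
    have h2 := this.pow (show 0 < 2 by norm_num)
    refine h2.congr' (Eventually.of_forall fun x => rfl) ?_
    filter_upwards [eventually_ge_atTop (0:ℝ)] with x hx
    show (x ^ (1 / 2 : ℝ)) ^ 2 = x
    rw [← Real.rpow_natCast, ← Real.rpow_mul hx]
    norm_num
  have h3 := hlt.eventually (h1.bound (show 0 < c₃ ^ 2 * δ by positivity))
  filter_upwards [h3, hlt.eventually_ge_atTop 0] with z hz hz0
  rw [Real.norm_of_nonneg (sq_nonneg _), Real.norm_of_nonneg hz0] at hz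
  linarith

open Classical in
/-- **One scale.** -/
theorem one_scale (q : ℕ) (hq : 0 < q) (c : ℕ) (v : ℤ) (hv : v ≠ 0) (m₀ : ℕ)
    (hco : IsCoprime ((g q m₀ : ℕ) : ℤ) (h c v m₀)) : ∃ K : ℕ, 1 ≤ K ∧ ∃ κ : ℝ, 0 < κ ∧ ∃ z₀ : ℕ, ∀ z : ℕ, z₀ ≤ z →
      κ * Real.log z ≤ ∑ i ∈ (Ioc (Nat.sqrt z) (z ^ K)).filter
        (fun i : ℕ => ∃ m : ℕ, 1 ≤ m ∧ (m : ℝ) ≤ Real.log z / 1000 ∧ ((g q m : ℤ) * i + h c v m).toNat.Prime), 1 / (i : ℝ) := by
  obtain ⟨K, hK, hpos⟩ := linnik_pos_delta 64 le_rfl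
  obtain ⟨C, hC, hsec⟩ := second q hq c v hv
  obtain ⟨c₃, hc₃, hWl⟩ := Wz_lower
  have hv0 : 0 < v.natAbs := Int.natAbs_pos.2 hv
  obtain ⟨n₀, hn₀, hper⟩ := period (8 * q * v.natAbs) (Nat.mul_pos (by omega) hv0) m₀
  have hn0r : (1:ℝ) ≤ n₀ := by exact_mod_cast hn₀
  set δ : ℝ := 1 / (4000 * n₀) with hδ
  have hδ0 : 0 < δ := by positivity
  set E : ℝ := 16 * n₀ ^ 2 * C + 1 with hE
  have hE1 : 1 ≤ E := by
    have : 0 ≤ 16 * (n₀:ℝ) ^ 2 * C := by positivity
    linarith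
  obtain ⟨κ, hκ, hM⟩ := hpos E δ hE1 hδ0
  obtain ⟨z₁, hz₁⟩ := hM (8 * q * 36 ^ (8 * n₀))
  obtain ⟨z₂, hz₂⟩ := eventually_atTop.1 (ev_L (8 * q + 8 * c + v.natAbs) δ c₃ hδ0 hc₃ (10000 * n₀))
  refine ⟨K, hK, κ, hκ, max z₁ (max z₂ 2), fun z hz => ?_⟩
  obtain ⟨hLA, hLB, hLl⟩ := hz₂ z ((le_max_left _ _).trans ((le_max_right _ _).trans hz))
  have hz2 : 2 ≤ z := (le_max_right _ _).trans ((le_max_right _ _).trans hz)
  obtain ⟨r₁, a₁, hr₁, hρ, hmain⟩ := hz₁ z ((le_max_left _ _).trans hz)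
  set L : ℝ := Real.log z with hL
  have hL0 : 0 < L := by linarith
  have hz0 : (0:ℝ) < z := by exact_mod_cast (by omega : 0 < z)
  have hzexp : Real.exp L = z := Real.exp_log hz0
  set M : ℕ := ⌊L / 1000⌋₊ with hMd
  have hMle : (M:ℝ) ≤ L / 1000 := Nat.floor_le (by positivity)
  have hMge : L / 1000 - 1 < M := Nat.sub_one_lt_floor _
  set T : Finset ℕ := ((Icc 1 M).filter (fun m => m % n₀ = m₀ % n₀)).filter (fun m => ¬ r₁ ^ a₁ ∣ 8 * q * d m ^ 2) with hT
  have hTsub : T ⊆ Icc 1 M := (filter_subset _ _).trans (filter_subset _ _)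
  have hTm : ∀ t ∈ T, 1 ≤ t ∧ t ≤ M ∧ t % n₀ = m₀ % n₀ ∧ ¬ r₁ ^ a₁ ∣ 8 * q * d t ^ 2 := by
    intro t ht
    rw [hT, mem_filter, mem_filter, mem_Icc] at ht
    exact ⟨ht.1.1.1, ht.1.1.2, ht.1.2, ht.2⟩
  -- the cardinality
  have hTc : δ * L ≤ T.card := by
    have h1 := card_class M n₀ m₀ hn₀
    have h2 := card_rho (8 * q) (by positivity) r₁ a₁ hr₁ (8 * n₀) (by omega) hρ M
    have h3 : ((Icc 1 M).filter (fun m => m % n₀ = m₀ % n₀)).card ≤ T.card +
        ((Icc 1 M).filter (fun m => r₁ ^ a₁ ∣ 8 * q * d m ^ 2)).card := by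
      refine le_trans (card_le_card ?_) (card_union_le _ _)
      intro m hm
      rw [mem_union]
      by_cases h4 : r₁ ^ a₁ ∣ 8 * q * d m ^ 2
      · right
        exact mem_filter.2 ⟨(mem_filter.1 hm).1, h4⟩
      · left
        exact mem_filter.2 ⟨hm, h4⟩
    have h4 : ((2 * M / (8 * n₀) : ℕ) : ℝ) ≤ (2 * M) / (8 * n₀) := by
      refine (Nat.cast_div_le).trans (le_of_eq ?_)
      push_cast
      ring
    have h5 : (M : ℝ) / n₀ - 1 ≤ ((M / n₀ : ℕ) : ℝ) := by
      have := Nat.lt_floor_add_one ((M : ℝ) / n₀)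
      rw [Nat.floor_div_natCast, Nat.floor_natCast] at this
      linarith
    have h6 : ((M / n₀ : ℕ) : ℝ) ≤ T.card + ((2 * M / (8 * n₀) : ℕ) : ℝ) := by
      have : M / n₀ ≤ T.card + 2 * M / (8 * n₀) := by omega
      exact_mod_cast this
    have h7 : (2 * M : ℝ) / (8 * n₀) = (M / n₀) / 4 := by
      have : (n₀:ℝ) ≠ 0 := by positivity
      rw [div_div, div_eq_div_iff (by positivity) (by positivity)]
      ring
    have h8 : 9 * n₀ ≤ (M:ℝ) := by linarith
    have h9 : 9 ≤ (M:ℝ) / n₀ := by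
      rw [le_div_iff₀ (by linarith)]
      exact h8
    have h10 : δ * L ≤ (M:ℝ) / n₀ / 2 := by
      rw [hδ]
      have h11 : L ≤ 2000 * M := by linarith
      calc 1 / (4000 * (n₀:ℝ)) * L ≤ 1 / (4000 * (n₀:ℝ)) * (2000 * M) := by gcongr
        _ = (M:ℝ) / n₀ / 2 := by
          have : (n₀:ℝ) ≠ 0 := by positivity
          rw [div_div, one_div_mul_eq_div, div_eq_div_iff (by positivity) (by positivity)]
          ring
    linarith
  -- the size of the coefficients
  have h36 : ∀ t : ℕ, t ≤ M → ((36:ℝ)) ^ t ≤ Real.exp (L / 128) := by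
    intro t ht
    have h1 : (36:ℝ) ≤ Real.exp 4 := by
      have h2 := Real.add_one_le_exp (1:ℝ)
      have h3 : Real.exp 4 = Real.exp 1 ^ 4 := by rw [← Real.exp_nat_mul]; norm_num
      have h4 : (2.7182818283:ℝ) < Real.exp 1 := Real.exp_one_gt_d9
      rw [h3]
      calc (36:ℝ) ≤ 2.7182818283 ^ 4 := by norm_num
        _ ≤ Real.exp 1 ^ 4 := by gcongr
    have htr : (t:ℝ) ≤ L / 1000 := by
      have : (t:ℝ) ≤ M := by exact_mod_cast ht
      linarith
    calc ((36:ℝ)) ^ t ≤ (Real.exp 4) ^ t := by gcongr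
      _ = Real.exp (t * 4) := by rw [← Real.exp_nat_mul]
      _ ≤ Real.exp (L / 128) := Real.exp_le_exp.2 (by linarith)
  have hdsq : ∀ t : ℕ, ((d t : ℕ) : ℝ) ^ 2 ≤ 36 ^ t := by
    intro t
    have h1 : (d t : ℝ) ≤ 6 ^ t := by exact_mod_cast d_le t
    calc ((d t : ℕ) : ℝ) ^ 2 ≤ (6 ^ t) ^ 2 := by gcongr
      _ = 36 ^ t := by rw [← pow_mul, mul_comm, pow_mul]; norm_num
  have hexp64 : Real.exp (L / 128) * Real.exp (L / 128) = Real.exp (L / 64) := by
    rw [← Real.exp_add]; congr 1; ring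
  have hpow : ∀ x : ℕ, (x:ℝ) ≤ Real.exp (L / 64) → x ^ 64 ≤ z := by
    intro x hx
    have h1 : (x:ℝ) ^ 64 ≤ (z:ℝ) := by
      calc (x:ℝ) ^ 64 ≤ Real.exp (L / 64) ^ 64 := by gcongr
        _ = (z:ℝ) := by
          rw [← Real.exp_nat_mul, ← hzexp]
          congr 1
          push_cast
          ring
    exact_mod_cast h1
  have hQ' : ∀ p ∈ QQ ⌊Real.log z / (64:ℕ)⌋₊ r₁, p.Prime := QQ_prime _ _
  have hn : (0:ℝ) < T.card := by
    have : 0 < δ * L := by positivity
    linarith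
  have hres := hmain T (g q) (h c v) ?_ ?_ _ rfl ?_ hTc
  · refine hres.trans ?_
    apply sum_le_sum_of_subset_of_nonneg
    · intro i hi
      rw [mem_filter] at hi ⊢
      refine ⟨hi.1, ?_⟩
      have h1 : 0 < cnt T (g q) (h c v) i := by
        have h2 : 0 < κ * (T.card / L) := by positivity
        have := h2.trans_le hi.2
        exact_mod_cast this
      unfold cnt at h1
      rw [card_pos] at h1
      obtain ⟨m, hm⟩ := h1
      rw [mem_filter] at hm
      obtain ⟨k1, k2, -, -⟩ := hTm m hm.1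
      refine ⟨m, k1, ?_, hm.2⟩
      have : (m:ℝ) ≤ M := by exact_mod_cast k2
      linarith
    · intro i _ _
      positivity
  · -- the coefficients
    intro t ht
    obtain ⟨k1, k2, k3, k4⟩ := hTm t ht
    have hB1 : (8 * q : ℝ) ≤ Real.exp (L / 128) := by
      have : (0:ℝ) ≤ 8 * c + v.natAbs := by positivity
      linarith
    have hdt := d_pos t
    refine ⟨?_, ?_, ?_, coprime_class q c v m₀ t hco (hper t k3), k4⟩
    · unfold g
      have : 0 < 8 * q * d t ^ 2 := by positivity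
      omega
    · apply hpow
      unfold g
      push_cast
      rw [← hexp64]
      exact mul_le_mul hB1 ((hdsq t).trans (h36 t k2)) (by positivity) (Real.exp_pos _).le
    · apply hpow
      have h1 : ((h c v t).natAbs : ℝ) = |((h c v t : ℤ) : ℝ)| := by
        rw [Nat.cast_natAbs, Int.cast_abs]
      have h2 : |((h c v t : ℤ) : ℝ)| ≤ 8 * c * (d t : ℝ) ^ 2 + v.natAbs := by
        unfold h
        push_cast
        refine (abs_add_le _ _).trans ?_
        have e1 : |(8 * c * (d t : ℝ) ^ 2 : ℝ)| = 8 * c * (d t : ℝ) ^ 2 := abs_of_nonneg (by positivity)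
        have e2 : |(v : ℝ)| = (v.natAbs : ℝ) := by rw [Nat.cast_natAbs, Int.cast_abs]
        rw [e1, e2]
      rw [h1, ← hexp64]
      have h3 : (1:ℝ) ≤ 36 ^ t := one_le_pow₀ (by norm_num)
      calc |((h c v t : ℤ) : ℝ)| ≤ 8 * c * (d t : ℝ) ^ 2 + v.natAbs := h2
        _ ≤ 8 * c * 36 ^ t + v.natAbs * 36 ^ t := by
            have h4 := hdsq t
            have h5 : (v.natAbs : ℝ) ≤ v.natAbs * 36 ^ t := le_mul_of_one_le_right (Nat.cast_nonneg _) h3
            gcongr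
        _ = (8 * c + v.natAbs) * 36 ^ t := by ring
        _ ≤ Real.exp (L / 128) * Real.exp (L / 128) := by
            apply mul_le_mul _ (h36 t k2) (by positivity) (Real.exp_pos _).le
            have : (0:ℝ) ≤ 8 * q := by positivity
            linarith
  · -- not proportional
    have key : ∀ s t : ℕ, 1 ≤ t → t < s → (g q s : ℤ) * h c v t ≠ g q t * h c v s := by
      intro s t ht hst heq
      have h1 : ((g q s : ℕ) : ℤ) * h c v t - g q t * h c v s = 64 * (q * (v * (b (s + t) * b (s - t)))) := by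
        unfold g h
        push_cast
        linear_combination 8 * q * v * diff_sq hst.le
      rw [heq, sub_self] at h1
      have hb1 : (b (s + t) : ℤ) ≠ 0 := by
        have := b_pos (show 1 ≤ s + t by omega)
        exact_mod_cast (by omega : b (s + t) ≠ 0)
      have hb2 : (b (s - t) : ℤ) ≠ 0 := by
        have := b_pos (show 1 ≤ s - t by omega)
        exact_mod_cast (by omega : b (s - t) ≠ 0)
      have hq0 : (q : ℤ) ≠ 0 := by exact_mod_cast hq.ne'
      have h2 : (64:ℤ) * (q * (v * (b (s + t) * b (s - t)))) ≠ 0 := by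
        apply mul_ne_zero (by norm_num)
        exact mul_ne_zero hq0 (mul_ne_zero hv (mul_ne_zero hb1 hb2))
      exact h2 h1.symm
    intro s hs t ht hst heq
    rcases lt_or_gt_of_ne hst with hlt | hlt
    · exact key t s (hTm s hs).1 hlt heq.symm
    · exact key s t (hTm t ht).1 hlt heq
  · -- the second moment
    refine (hsec M T hTsub _ hQ').trans ?_
    set Q := QQ ⌊Real.log z / (64:ℕ)⌋₊ r₁ with hQ
    have hPQ0 : (0:ℝ) < PQ Q := by exact_mod_cast PQ_pos hQ'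
    have hW0 : 0 < WQ Q := WQ_pos hQ'
    have hML : (M:ℝ) ≤ 4 * n₀ * T.card := by
      have h1 : L ≤ 4000 * n₀ * T.card := by
        have h2 : 4000 * n₀ * (δ * L) ≤ 4000 * n₀ * T.card := by gcongr
        have h3 : 4000 * n₀ * (δ * L) = L := by
          rw [hδ]
          field_simp
        linarith
      linarith
    have hWT : 1 ≤ WQ Q ^ 2 * T.card := by
      set y : ℕ := ⌊Real.log z / (64:ℕ)⌋₊ with hy
      have hyle : (y:ℝ) ≤ L := by
        have := Nat.floor_le (show 0 ≤ L / (64 : ℕ) by positivity)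
        push_cast at this
        have h2 : (y:ℝ) ≤ L / 64 := by
          rw [hy]
          push_cast
          exact this
        linarith
      have hy3 : 3 ≤ y := by
        rw [hy]
        apply Nat.le_floor
        push_cast
        linarith
      have h1 := hWl y hy3
      have h2 : Wz y ≤ WQ Q := WQ_QQ_ge y r₁
      have hy1 : (1:ℝ) < y := by
        have : (3:ℝ) ≤ y := by exact_mod_cast hy3
        linarith
      have h3 : Real.log y ≤ Real.log L := Real.log_le_log (by linarith) hyle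
      have h4 : 0 < Real.log y := Real.log_pos hy1
      have h5 : c₃ / Real.log L ≤ WQ Q := (div_le_div_of_nonneg_left hc₃.le h4 h3).trans (h1.trans h2)
      have h6 : 0 < Real.log L := h4.trans_le h3
      calc (1:ℝ) = (Real.log L) ^ 2 / (Real.log L) ^ 2 := by rw [div_self (by positivity)]
        _ ≤ (c₃ ^ 2 * (δ * L)) / (Real.log L) ^ 2 := by gcongr
        _ = (c₃ / Real.log L) ^ 2 * (δ * L) := by rw [div_pow]; ring
        _ ≤ WQ Q ^ 2 * T.card := by gcongr
    have h1 : (PQ Q : ℝ) * T.card ≤ PQ Q * (WQ Q * T.card) ^ 2 := by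
      apply mul_le_mul_of_nonneg_left _ hPQ0.le
      calc (T.card : ℝ) = 1 * T.card := by ring
        _ ≤ (WQ Q ^ 2 * T.card) * T.card := by gcongr
        _ = (WQ Q * T.card) ^ 2 := by ring
    have h2 : C * ((PQ Q : ℝ) * WQ Q ^ 2 * M ^ 2) ≤ 16 * n₀ ^ 2 * C * (PQ Q * (WQ Q * T.card) ^ 2) := by
      calc C * ((PQ Q : ℝ) * WQ Q ^ 2 * M ^ 2) ≤ C * ((PQ Q : ℝ) * WQ Q ^ 2 * (4 * n₀ * T.card) ^ 2) := by gcongr
        _ = _ := by ring
    rw [hE]
    nlinarith

open Classical in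
/-- **The multipliers.** -/
theorem dens (q : ℕ) (hq : 0 < q) (c : ℕ) (v : ℤ) (m₀ : ℕ)
    (hco : IsCoprime ((g q m₀ : ℕ) : ℤ) (h c v m₀)) : ∃ κ : ℝ, 0 < κ ∧ ∃ X₀ : ℕ, ∀ X : ℕ, X₀ ≤ X →
      κ * Real.log X ≤ ∑ j ∈ (Icc 1 X).filter (fun j : ℕ => j % q = c % q ∧
        ∃ m : ℕ, 1 ≤ m ∧ (m : ℝ) ≤ Real.log j ∧ (8 * (j : ℤ) * (d m : ℤ) ^ 2 + v).toNat.Prime), 1 / (j : ℝ) := by
  have hv : v ≠ 0 := by
    intro hv
    rw [hv] at hco
    have h1 : IsCoprime (2 : ℤ) 2 := by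
      apply hco.mono
      · exact ⟨4 * q * (d m₀ : ℤ) ^ 2, by unfold g; push_cast; ring⟩
      · exact ⟨4 * c * (d m₀ : ℤ) ^ 2, by unfold h; ring⟩
    have h2 := isCoprime_self.1 h1
    rw [Int.isUnit_iff] at h2
    omega
  obtain ⟨K, hK, κ, hκ, z₀, hz₀⟩ := one_scale q hq c v hv m₀ hco
  have hqc : (0:ℝ) < c + q := by positivity
  refine ⟨κ / (2 * (K + 1) * (c + q)), by positivity, (z₀ + c + q + 3) ^ (K + 1), fun X hX => ?_⟩
  obtain ⟨z, hz1, hz2⟩ := exists_root (K + 1) X (by omega)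
  have hz : z₀ + c + q + 2 ≤ z := by
    by_contra hcon
    push Not at hcon
    have h1 : (z + 1) ^ (K + 1) ≤ (z₀ + c + q + 3) ^ (K + 1) := Nat.pow_le_pow_left (by omega) _
    omega
  have h0 := hz₀ z (by omega)
  have hz2r : (2:ℝ) ≤ z := by exact_mod_cast (by omega : 2 ≤ z)
  have hlz : 0 < Real.log z := Real.log_pos (by linarith)
  have hX0 : 0 < X := lt_of_lt_of_le (pow_pos (by omega) _) hX
  have hX0r : (0:ℝ) < X := by exact_mod_cast hX0
  -- the logarithms
  have hlog : Real.log X ≤ 2 * (K + 1) * Real.log z := by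
    have h1 : (X:ℝ) ≤ (z:ℝ) ^ (2 * (K + 1)) := by
      have h2 : X ≤ (z ^ 2) ^ (K + 1) := by
        refine hz2.le.trans (Nat.pow_le_pow_left ?_ _)
        nlinarith
      rw [← pow_mul] at h2
      exact_mod_cast h2
    have h2 := Real.log_le_log hX0r h1
    rw [Real.log_pow] at h2
    push_cast at h2
    exact h2
  set S := (Ioc (Nat.sqrt z) (z ^ K)).filter
        (fun i : ℕ => ∃ m : ℕ, 1 ≤ m ∧ (m : ℝ) ≤ Real.log z / 1000 ∧ ((g q m : ℤ) * i + h c v m).toNat.Prime) with hS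
  have hSm : ∀ i ∈ S, Nat.sqrt z < i ∧ i ≤ z ^ K ∧
      ∃ m : ℕ, 1 ≤ m ∧ (m : ℝ) ≤ Real.log z / 1000 ∧ ((g q m : ℤ) * i + h c v m).toNat.Prime := by
    intro i hi
    rw [hS, mem_filter, mem_Ioc] at hi
    exact ⟨hi.1.1, hi.1.2, hi.2⟩
  have hinj : ∀ i ∈ S, ∀ i' ∈ S, c + q * i = c + q * i' → i = i' := by
    intro i _ i' _ h
    exact Nat.eq_of_mul_eq_mul_left hq (by omega)
  have h1 : ∑ i ∈ S, 1 / ((c + q * i : ℕ) : ℝ) ≤ ∑ j ∈ (Icc 1 X).filter (fun j : ℕ => j % q = c % q ∧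
        ∃ m : ℕ, 1 ≤ m ∧ (m : ℝ) ≤ Real.log j ∧ (8 * (j : ℤ) * (d m : ℤ) ^ 2 + v).toNat.Prime), 1 / (j : ℝ) := by
    rw [← sum_image (f := fun j : ℕ => 1 / (j : ℝ)) (g := fun i => c + q * i) (s := S)
      (fun i hi i' hi' h => hinj i hi i' hi' h)]
    apply sum_le_sum_of_subset_of_nonneg
    · intro j hj
      rw [mem_image] at hj
      obtain ⟨i, hi, rfl⟩ := hj
      obtain ⟨k1, k2, m, k3, k4, k5⟩ := hSm i hi
      have hi1 : 1 ≤ i := by omega
      rw [mem_filter, mem_Icc]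
      refine ⟨⟨?_, ?_⟩, ?_, m, k3, ?_, ?_⟩
      · have : 0 < q * i := Nat.mul_pos hq hi1
        omega
      · calc c + q * i ≤ c * z ^ K + q * z ^ K := by
              have h3 : 1 ≤ z ^ K := Nat.one_le_pow _ _ (by omega)
              have h4 : c ≤ c * z ^ K := Nat.le_mul_of_pos_right _ (by omega)
              have h5 : q * i ≤ q * z ^ K := Nat.mul_le_mul_left _ k2
              omega
          _ = (c + q) * z ^ K := by ring
          _ ≤ z * z ^ K := Nat.mul_le_mul_right _ (by omega)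
          _ = z ^ (K + 1) := by ring
          _ ≤ X := hz1
      · rw [Nat.add_mul_mod_self_left]
      · have h3 : z < i * i := Nat.sqrt_lt.1 k1
        have h4 : Real.log z ≤ 2 * Real.log i := by
          have h5 : (z:ℝ) ≤ (i:ℝ) ^ 2 := by
            have : z ≤ i ^ 2 := by rw [sq]; exact h3.le
            exact_mod_cast this
          have h6 := Real.log_le_log (by linarith) h5
          rw [Real.log_pow] at h6
          push_cast at h6
          exact h6
        have h5 : Real.log i ≤ Real.log ((c + q * i : ℕ) : ℝ) := by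
          apply Real.log_le_log (by exact_mod_cast hi1)
          have : i ≤ c + q * i := by nlinarith
          exact_mod_cast this
        linarith
      · have e : 8 * ((c + q * i : ℕ) : ℤ) * (d m : ℤ) ^ 2 + v = (g q m : ℤ) * i + h c v m := by
          unfold g h
          push_cast
          ring
        rw [e]
        exact k5
    · intro j _ _
      positivity
  refine le_trans ?_ h1
  have h2 : (1 / (c + q) : ℝ) * ∑ i ∈ S, 1 / (i : ℝ) ≤ ∑ i ∈ S, 1 / ((c + q * i : ℕ) : ℝ) := by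
    rw [mul_sum]
    apply sum_le_sum
    intro i hi
    have hi1 : 1 ≤ i := by have := (hSm i hi).1; omega
    have hir : (1:ℝ) ≤ i := by exact_mod_cast hi1
    have h3 : ((c + q * i : ℕ) : ℝ) ≤ (c + q) * i := by
      push_cast
      have : (0:ℝ) ≤ c := Nat.cast_nonneg _
      nlinarith
    rw [div_mul_div_comm, one_mul]
    apply one_div_le_one_div_of_le _ h3
    have : 0 < c + q * i := by
      have := Nat.mul_pos hq hi1
      omega
    exact_mod_cast this
  refine le_trans ?_ h2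
  calc κ / (2 * (K + 1) * (c + q)) * Real.log X ≤ κ / (2 * (K + 1) * (c + q)) * (2 * (K + 1) * Real.log z) := by gcongr
    _ = (1 / (c + q) : ℝ) * (κ * Real.log z) := by
      field_simp
    _ ≤ _ := by gcongr

end Pool.Agent.Helper24K9.PD
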