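import Mathlib
import Pool.Agent.Helper24K9.LI.Lg
import Pool.Agent.Helper24K9.PD.Fin

set_option autoImplicit false

/-! Many primes: multipliers `j` which are divisible by many small primes. -/

open Finset Filter Topology

namespace Pool.Agent.Helper24K9.PD

open Pool.Agent.Helper24K9.LI Pool.Agent.W218.HF Pool.Agent.Erdos456 Pool.Agent.Erdos456.Mert

/-- the number of the classes in which `k g + h` has no prime factor in `Q`, if `g` is divisible by the primes in `S` -/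
lemma class_count_gain (Q S : Finset ℕ) (hQp : ∀ p ∈ Q, p.Prime) (hS : S ⊆ Q) (g h : ℤ) (hgh : IsCoprime g h)
    (hSg : ∀ p ∈ S, (p : ℤ) ∣ g) : (PQ Q : ℝ) * WQ Q ≤
    WQ S * (((range (PQ Q)).filter (fun r : ℕ => ∀ p ∈ Q, ¬ (p : ℤ) ∣ (r : ℤ) * g + h)).card : ℝ) := by
  classical
  have h1 := Pool.Agent.H373R2.BH.crt_count Q hQp (fun p r => ¬ (p : ℤ) ∣ (r : ℤ) * g + h)
  have h2 : ((range (PQ Q)).filter (fun r : ℕ => ∀ p ∈ Q, ¬ (p : ℤ) ∣ (r : ℤ) * g + h)).card =
      ∏ p ∈ Q, ((range p).filter (fun r : ℕ => ¬ (p : ℤ) ∣ (r : ℤ) * g + h)).card := by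
    rw [← h1]
    unfold PQ
    congr 1
    apply filter_congr
    intro r _
    apply forall_congr'; intro p
    apply forall_congr'; intro hp
    have hmod : (p : ℤ) ∣ ((r % p : ℕ) : ℤ) * g + h ↔ (p : ℤ) ∣ (r : ℤ) * g + h := by
      apply UQ.dvd_iff_of_modEq
      exact Int.ModEq.add (Int.ModEq.mul ((Int.natCast_modEq_iff).2 (Nat.mod_modEq r p)) rfl) rfl
    rw [hmod]
  rw [h2]
  have h3 : (PQ Q : ℝ) * WQ Q = ∏ p ∈ Q, ((p : ℝ) - 1) := by
    unfold PQ WQ
    push_cast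
    rw [← prod_mul_distrib]
    apply prod_congr rfl
    intro p hp
    have : (p:ℝ) ≠ 0 := by exact_mod_cast (hQp p hp).ne_zero
    field_simp
  have h4 : WQ S = ∏ p ∈ Q, (if p ∈ S then (1 - 1 / (p : ℝ)) else 1) := by
    rw [← prod_filter]
    unfold WQ
    apply prod_congr _ (fun _ _ => rfl)
    ext p
    rw [mem_filter]
    exact ⟨fun hp => ⟨hS hp, hp⟩, fun hp => hp.2⟩
  rw [h3, h4]
  push_cast
  rw [← prod_mul_distrib]
  apply Finset.prod_le_prod
  · intro p hp
    have : (1:ℝ) < p := by exact_mod_cast (hQp p hp).one_lt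
    linarith
  · intro p hp
    have hpp := hQp p hp
    have h4 := card_filter_add_card_filter_not (s := range p) (fun r : ℕ => (p : ℤ) ∣ (r : ℤ) * g + h)
    rw [card_range] at h4
    have hp0 : (0:ℝ) < p := by exact_mod_cast hpp.pos
    split_ifs with hpS
    · have h5 : ((range p).filter (fun r : ℕ => (p : ℤ) ∣ (r : ℤ) * g + h)).card = 0 := by
        rw [card_eq_zero, filter_eq_empty_iff]
        intro r _ h6
        have h7 := hSg p hpS
        have h8 : (p : ℤ) ∣ h := (dvd_add_right (h7.mul_left _)).1 h6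
        have h9 := hgh.isUnit_of_dvd' h7 h8
        rw [Int.isUnit_iff] at h9
        have := hpp.two_le
        omega
      rw [h5, zero_add] at h4
      rw [h4]
      have : (1 - 1 / (p : ℝ)) * p = p - 1 := by field_simp
      rw [this]
    · have h5 : ((range p).filter (fun r : ℕ => (p : ℤ) ∣ (r : ℤ) * g + h)).card ≤ 1 := by
        rw [card_le_one]
        intro r hr s hs
        rw [mem_filter, mem_range] at hr hs
        have h6 : (p : ℤ) ∣ ((r : ℤ) - s) * g := by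
          have := dvd_sub hr.2 hs.2
          have e : (r : ℤ) * g + h - ((s : ℤ) * g + h) = ((r : ℤ) - s) * g := by ring
          rwa [e] at this
        rcases (Nat.prime_iff_prime_int.1 hpp).dvd_or_dvd h6 with h7 | h7
        · have h8 : s ≡ r [MOD p] := (Nat.modEq_iff_dvd).2 h7
          unfold Nat.ModEq at h8
          rw [Nat.mod_eq_of_lt hr.1, Nat.mod_eq_of_lt hs.1] at h8
          exact h8.symm
        · exfalso
          have h8 : (p : ℤ) ∣ h := (dvd_add_right (h7.mul_left _)).1 hr.2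
          have h9 := hgh.isUnit_of_dvd' h7 h8
          rw [Int.isUnit_iff] at h9
          have := hpp.two_le
          omega
      have h6 : (((range p).filter (fun r : ℕ => (p : ℤ) ∣ (r : ℤ) * g + h)).card : ℝ) ≤ 1 := by exact_mod_cast h5
      have h7 : (((range p).filter (fun r : ℕ => (p : ℤ) ∣ (r : ℤ) * g + h)).card : ℝ) +
          (((range p).filter (fun r : ℕ => ¬ (p : ℤ) ∣ (r : ℤ) * g + h)).card : ℝ) = p := by exact_mod_cast h4
      linarith

lemma WQ_le_exp (S : Finset ℕ) (hS : ∀ p ∈ S, p.Prime) : WQ S ≤ Real.exp (-∑ p ∈ S, 1 / (p : ℝ)) := by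
  rw [← sum_neg_distrib, Real.exp_sum]
  unfold WQ
  apply Finset.prod_le_prod
  · intro p hp
    have h1 : (1:ℝ) ≤ p := by exact_mod_cast (hS p hp).one_lt.le
    have : 1 / (p:ℝ) ≤ 1 := by rw [div_le_one (by linarith)]; exact h1
    linarith
  · intro p _
    have := Real.add_one_le_exp (-(1 / (p:ℝ)))
    linarith

/-- many small primes -/
lemma exists_gain (N : ℕ) (hN : N ≠ 0) (F : ℝ) : ∃ S : Finset ℕ, (∀ p ∈ S, p.Prime ∧ ¬ p ∣ N) ∧
    ∀ r : ℕ, F * WQ (S.erase r) ≤ 1 := by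
  classical
  have h0 : ∀ n : ℕ, 0 ≤ Set.indicator {p : ℕ | p.Prime} (fun n : ℕ ↦ (1 : ℝ) / n) n :=
    fun n => Set.indicator_nonneg (fun p _ => by positivity) _
  have h1 := (not_summable_iff_tendsto_nat_atTop_of_nonneg h0).1 not_summable_one_div_on_primes
  obtain ⟨n, hn⟩ := (h1.eventually_ge_atTop (|F| + N.primeFactors.card + 1)).exists
  have h2 : ∑ p ∈ (range n).filter Nat.Prime, 1 / (p : ℝ) =
      ∑ i ∈ range n, Set.indicator {p : ℕ | p.Prime} (fun n : ℕ ↦ (1 : ℝ) / n) i := by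
    rw [sum_filter]
    apply sum_congr rfl
    intro p _
    rw [Set.indicator_apply]
    by_cases hp : p.Prime
    · rw [if_pos hp, if_pos (by exact hp)]
    · rw [if_neg hp, if_neg (by exact hp)]
  set S := ((range n).filter Nat.Prime).filter (fun p => ¬ p ∣ N) with hS
  have hSp : ∀ p ∈ S, p.Prime ∧ ¬ p ∣ N := by
    intro p hp
    rw [hS, mem_filter, mem_filter] at hp
    exact ⟨hp.1.2, hp.2⟩
  refine ⟨S, hSp, fun r => ?_⟩
  have h3 : ∑ p ∈ (range n).filter Nat.Prime, 1 / (p : ℝ) ≤ ∑ p ∈ S, 1 / (p : ℝ) + N.primeFactors.card := by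
    rw [← sum_filter_add_sum_filter_not ((range n).filter Nat.Prime) (fun p => ¬ p ∣ N)]
    have h4 : ∑ p ∈ ((range n).filter Nat.Prime).filter (fun p => ¬ ¬ p ∣ N), 1 / (p : ℝ) ≤ N.primeFactors.card := by
      calc ∑ p ∈ ((range n).filter Nat.Prime).filter (fun p => ¬ ¬ p ∣ N), 1 / (p : ℝ) ≤
          ∑ p ∈ N.primeFactors, (1 : ℝ) := by
            refine (sum_le_sum (g := fun _ => (1:ℝ)) ?_).trans (sum_le_sum_of_subset_of_nonneg ?_ ?_)
            · intro p hp
              rw [mem_filter, mem_filter] at hp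
              have : (1:ℝ) ≤ p := by exact_mod_cast hp.1.2.one_lt.le
              rw [div_le_one (by linarith)]
              exact this
            · intro p hp
              rw [mem_filter, mem_filter, not_not] at hp
              rw [Nat.mem_primeFactors]
              exact ⟨hp.1.2, hp.2, hN⟩
            · intro p _ _; exact zero_le_one
        _ = N.primeFactors.card := by simp
    linarith
  have h5 : ∑ p ∈ S, 1 / (p : ℝ) ≤ ∑ p ∈ S.erase r, 1 / (p : ℝ) + 1 := by
    by_cases hr : r ∈ S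
    · rw [← sum_erase_add _ _ hr]
      have : (1:ℝ) ≤ r := by exact_mod_cast (hSp r hr).1.one_lt.le
      have : 1 / (r:ℝ) ≤ 1 := by rw [div_le_one (by linarith)]; exact this
      linarith
    · rw [erase_eq_of_notMem hr]
      linarith
  have h6 : |F| ≤ ∑ p ∈ S.erase r, 1 / (p : ℝ) := by
    rw [← h2] at hn
    linarith
  have hp' : ∀ p ∈ S.erase r, p.Prime := fun p hp => (hSp p (mem_of_mem_erase hp)).1
  have h7 := WQ_le_exp (S.erase r) hp'
  have h8 : Real.exp (-∑ p ∈ S.erase r, 1 / (p : ℝ)) ≤ Real.exp (-|F|) := Real.exp_le_exp.2 (by linarith)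
  have h9 : 0 < WQ (S.erase r) := WQ_pos hp'
  have h10 : |F| ≤ Real.exp |F| := by have := Real.add_one_le_exp |F|; linarith
  calc F * WQ (S.erase r) ≤ |F| * WQ (S.erase r) := mul_le_mul_of_nonneg_right (le_abs_self F) h9.le
    _ ≤ Real.exp |F| * Real.exp (-|F|) := mul_le_mul h10 (h7.trans h8) h9.le (Real.exp_pos _).le
    _ = 1 := by rw [← Real.exp_add]; simp

/-- the coefficients stay coprime when `q` and `c` are changed -/
lemma coprime_gain (q c P c' : ℕ) (v : ℤ) (m : ℕ) (hco : IsCoprime ((g q m : ℕ) : ℤ) (h c v m))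
    (hP : Nat.Coprime P v.natAbs) (hc1 : (q : ℤ) ∣ (c' : ℤ) - c) (hc2 : P ∣ c') :
    IsCoprime ((g (q * P) m : ℕ) : ℤ) (h c' v m) := by
  have e1 : ((g (q * P) m : ℕ) : ℤ) = ((g q m : ℕ) : ℤ) * P := by unfold g; push_cast; ring
  rw [e1]
  obtain ⟨k, hk⟩ := hc1
  apply IsCoprime.mul_left
  · have e2 : h c' v m = h c v m + ((g q m : ℕ) : ℤ) * k := by
      unfold h g
      push_cast
      linear_combination 8 * (d m : ℤ) ^ 2 * hk
    rw [e2]
    exact hco.add_mul_left_right _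
  · have h1 : IsCoprime (P : ℤ) v := by
      rw [Int.isCoprime_iff_gcd_eq_one]
      exact hP
    obtain ⟨l, hl⟩ := hc2
    have e2 : h c' v m = v + (P : ℤ) * (8 * l * (d m : ℤ) ^ 2) := by
      unfold h
      rw [hl]
      push_cast
      ring
    rw [e2]
    exact h1.add_mul_left_right _

open Classical in
/-- **One scale, many primes.** -/
theorem one_scale_gain (q : ℕ) (hq : 0 < q) (c : ℕ) (v : ℤ) (hv : v ≠ 0) (m₀ : ℕ)
    (hco : IsCoprime ((g q m₀ : ℕ) : ℤ) (h c v m₀)) (k : ℕ) : ∃ q' c' : ℕ, 0 < q' ∧ q ∣ q' ∧ c' % q = c % q ∧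
      ∃ K : ℕ, 1 ≤ K ∧ ∃ κ : ℝ, 0 < κ ∧ ∃ z₀ : ℕ, ∀ z : ℕ, z₀ ≤ z →
      κ * Real.log z ≤ ∑ i ∈ (Ioc (Nat.sqrt z) (z ^ K)).filter
        (fun i : ℕ => k ≤ ((Icc 1 ⌊Real.log z / 1000⌋₊).filter
          (fun m : ℕ => ((g q' m : ℤ) * i + h c' v m).toNat.Prime)).card), 1 / (i : ℝ) := by
  obtain ⟨K, hK, κ₂, hκ₂, hpos⟩ := linnik_gain 64 le_rfl
  obtain ⟨c₃, hc₃, hWl⟩ := Wz_lower
  have hv0 : 0 < v.natAbs := Int.natAbs_pos.2 hv
  obtain ⟨n₀, hn₀, hper⟩ := period (8 * q * v.natAbs) (Nat.mul_pos (by omega) hv0) m₀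
  have hn0r : (1:ℝ) ≤ n₀ := by exact_mod_cast hn₀
  set δ : ℝ := 1 / (4000 * n₀) with hδ
  have hδ0 : 0 < δ := by positivity
  set F : ℝ := max 1 (k / (κ₂ * δ)) with hF
  have hF1 : 1 ≤ F := le_max_left _ _
  have hF0 : 0 < F := by linarith
  have hFk : (k:ℝ) ≤ κ₂ * (F * δ) := by
    have h1 : k / (κ₂ * δ) ≤ F := le_max_right _ _
    rw [div_le_iff₀ (by positivity)] at h1
    linarith
  -- the primes
  obtain ⟨S, hS, hSF⟩ := exists_gain (q * v.natAbs) (Nat.mul_pos hq hv0).ne' F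
  have hSp : ∀ p ∈ S, p.Prime := fun p hp => (hS p hp).1
  set P₀ : ℕ := PQ S with hP₀
  have hP₀0 : 0 < P₀ := PQ_pos hSp
  have hcopq : Nat.Coprime q P₀ := by
    rw [hP₀]
    unfold PQ
    apply Nat.Coprime.prod_right
    intro p hp
    exact (((hS p hp).1.coprime_iff_not_dvd).2 fun h1 => (hS p hp).2 (h1.mul_right _)).symm
  have hcopv : Nat.Coprime P₀ v.natAbs := by
    rw [hP₀]
    unfold PQ
    apply Nat.Coprime.prod_left
    intro p hp
    exact ((hS p hp).1.coprime_iff_not_dvd).2 fun h1 => (hS p hp).2 (h1.mul_left _)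
  obtain ⟨c', hc1, hc2⟩ := Nat.chineseRemainder hcopq c 0
  have hc2' : P₀ ∣ c' := (Nat.modEq_zero_iff_dvd).1 hc2
  have hc1' : (q : ℤ) ∣ (c' : ℤ) - c := (Nat.modEq_iff_dvd).1 hc1.symm
  set q' : ℕ := q * P₀ with hq'
  have hq'0 : 0 < q' := Nat.mul_pos hq hP₀0
  refine ⟨q', c', hq'0, Dvd.intro _ rfl, hc1, K, hK, ?_⟩
  obtain ⟨C, hC, hsec⟩ := second q' hq'0 c' v hv
  set E : ℝ := 16 * n₀ ^ 2 * C + 1 with hE
  have hE1 : 1 ≤ E := by
    have : 0 ≤ 16 * (n₀:ℝ) ^ 2 * C := by positivity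
    linarith
  obtain ⟨κ, hκ, hM⟩ := hpos E δ hE1 hδ0
  obtain ⟨z₁, hz₁⟩ := hM (8 * q' * 36 ^ (8 * n₀))
  obtain ⟨z₂, hz₂⟩ := eventually_atTop.1 (ev_L (8 * q' + 8 * c' + v.natAbs) δ c₃ hδ0 hc₃ (10000 * n₀ + 64 * (P₀ + 1)))
  refine ⟨κ, hκ, max z₁ (max z₂ 2), fun z hz => ?_⟩
  obtain ⟨hLA', hLB, hLl⟩ := hz₂ z ((le_max_left _ _).trans ((le_max_right _ _).trans hz))
  have hLA : 10000 * n₀ ≤ Real.log z := by
    have : (0:ℝ) ≤ 64 * (P₀ + 1) := by positivity
    linarith
  have hLP : 64 * ((P₀:ℝ) + 1) ≤ Real.log z := by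
    have : (0:ℝ) ≤ 10000 * n₀ := by positivity
    linarith
  have hz2 : 2 ≤ z := (le_max_right _ _).trans ((le_max_right _ _).trans hz)
  obtain ⟨r₁, a₁, hr₁, hρ, hmain⟩ := hz₁ z ((le_max_left _ _).trans hz)
  set L : ℝ := Real.log z with hL
  have hL0 : 0 < L := by linarith
  have hz0 : (0:ℝ) < z := by exact_mod_cast (by omega : 0 < z)
  have hzexp : Real.exp L = z := Real.exp_log hz0
  set M : ℕ := ⌊L / 1000⌋₊ with hMd
  have hMle : (M:ℝ) ≤ L / 1000 := Nat.floor_le (by positivity)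
  have hMge : L / 1000 - 1 < M := Nat.sub_one_lt_floor _
  set T : Finset ℕ := ((Icc 1 M).filter (fun m => m % n₀ = m₀ % n₀)).filter (fun m => ¬ r₁ ^ a₁ ∣ 8 * q' * d m ^ 2) with hT
  have hTsub : T ⊆ Icc 1 M := (filter_subset _ _).trans (filter_subset _ _)
  have hTm : ∀ t ∈ T, 1 ≤ t ∧ t ≤ M ∧ t % n₀ = m₀ % n₀ ∧ ¬ r₁ ^ a₁ ∣ 8 * q' * d t ^ 2 := by
    intro t ht
    rw [hT, mem_filter, mem_filter, mem_Icc] at ht
    exact ⟨ht.1.1.1, ht.1.1.2, ht.1.2, ht.2⟩
  -- the cardinality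
  have hTc : δ * L ≤ T.card := by
    have h1 := card_class M n₀ m₀ hn₀
    have h2 := card_rho (8 * q') (by positivity) r₁ a₁ hr₁ (8 * n₀) (by omega) hρ M
    have h3 : ((Icc 1 M).filter (fun m => m % n₀ = m₀ % n₀)).card ≤ T.card +
        ((Icc 1 M).filter (fun m => r₁ ^ a₁ ∣ 8 * q' * d m ^ 2)).card := by
      refine le_trans (card_le_card ?_) (card_union_le _ _)
      intro m hm
      rw [mem_union]
      by_cases h4 : r₁ ^ a₁ ∣ 8 * q' * d m ^ 2
      · right
        exact mem_filter.2 ⟨(mem_filter.1 hm).1, h4⟩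
      · left
        exact mem_filter.2 ⟨hm, h4⟩
    have h4 : ((2 * M / (8 * n₀) : ℕ) : ℝ) ≤ (2 * M) / (8 * n₀) := by
      refine (Nat.cast_div_le).trans (le_of_eq ?_)
      push_cast
      ring
    have h5 : (M : ℝ) / n₀ - 1 ≤ ((M / n₀ : ℕ) : ℝ) := by
      have := Nat.lt_floor_add_one ((M : ℝ) / n₀)
      rw [Nat.floor_div_natCast, Nat.floor_natCast] at this
      linarith
    have h6 : ((M / n₀ : ℕ) : ℝ) ≤ T.card + ((2 * M / (8 * n₀) : ℕ) : ℝ) := by
      have : M / n₀ ≤ T.card + 2 * M / (8 * n₀) := by omega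
      exact_mod_cast this
    have h7 : (2 * M : ℝ) / (8 * n₀) = (M / n₀) / 4 := by
      have : (n₀:ℝ) ≠ 0 := by positivity
      rw [div_div, div_eq_div_iff (by positivity) (by positivity)]
      ring
    have h8 : 9 * n₀ ≤ (M:ℝ) := by linarith
    have h9 : 9 ≤ (M:ℝ) / n₀ := by
      rw [le_div_iff₀ (by linarith)]
      exact h8
    have h10 : δ * L ≤ (M:ℝ) / n₀ / 2 := by
      rw [hδ]
      have h11 : L ≤ 2000 * M := by linarith
      calc 1 / (4000 * (n₀:ℝ)) * L ≤ 1 / (4000 * (n₀:ℝ)) * (2000 * M) := by gcongr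
        _ = (M:ℝ) / n₀ / 2 := by
          have : (n₀:ℝ) ≠ 0 := by positivity
          rw [div_div, one_div_mul_eq_div, div_eq_div_iff (by positivity) (by positivity)]
          ring
    linarith
  have hn : (0:ℝ) < T.card := by
    have : 0 < δ * L := by positivity
    linarith
  -- the size of the coefficients
  have h36 : ∀ t : ℕ, t ≤ M → ((36:ℝ)) ^ t ≤ Real.exp (L / 128) := by
    intro t ht
    have h1 : (36:ℝ) ≤ Real.exp 4 := by
      have h3 : Real.exp 4 = Real.exp 1 ^ 4 := by rw [← Real.exp_nat_mul]; norm_num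
      have h4 : (2.7182818283:ℝ) < Real.exp 1 := Real.exp_one_gt_d9
      rw [h3]
      calc (36:ℝ) ≤ 2.7182818283 ^ 4 := by norm_num
        _ ≤ Real.exp 1 ^ 4 := by gcongr
    have htr : (t:ℝ) ≤ L / 1000 := by
      have : (t:ℝ) ≤ M := by exact_mod_cast ht
      linarith
    calc ((36:ℝ)) ^ t ≤ (Real.exp 4) ^ t := by gcongr
      _ = Real.exp (t * 4) := by rw [← Real.exp_nat_mul]
      _ ≤ Real.exp (L / 128) := Real.exp_le_exp.2 (by linarith)
  have hdsq : ∀ t : ℕ, ((d t : ℕ) : ℝ) ^ 2 ≤ 36 ^ t := by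
    intro t
    have h1 : (d t : ℝ) ≤ 6 ^ t := by exact_mod_cast d_le t
    calc ((d t : ℕ) : ℝ) ^ 2 ≤ (6 ^ t) ^ 2 := by gcongr
      _ = 36 ^ t := by rw [← pow_mul, mul_comm, pow_mul]; norm_num
  have hexp64 : Real.exp (L / 128) * Real.exp (L / 128) = Real.exp (L / 64) := by
    rw [← Real.exp_add]; congr 1; ring
  have hpow : ∀ x : ℕ, (x:ℝ) ≤ Real.exp (L / 64) → x ^ 64 ≤ z := by
    intro x hx
    have h1 : (x:ℝ) ^ 64 ≤ (z:ℝ) := by
      calc (x:ℝ) ^ 64 ≤ Real.exp (L / 64) ^ 64 := by gcongr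
        _ = (z:ℝ) := by
          rw [← Real.exp_nat_mul, ← hzexp]
          congr 1
          push_cast
          ring
    exact_mod_cast h1
  set Q := QQ ⌊Real.log z / (64:ℕ)⌋₊ r₁ with hQ
  have hQ' : ∀ p ∈ Q, p.Prime := QQ_prime _ _
  have hPQ0 : (0:ℝ) < PQ Q := by exact_mod_cast PQ_pos hQ'
  have hW0 : 0 < WQ Q := WQ_pos hQ'
  have hcoT : ∀ t ∈ T, IsCoprime ((g q' t : ℕ) : ℤ) (h c' v t) := by
    intro t ht
    exact coprime_gain q c P₀ c' v t (coprime_class q c v m₀ t hco (hper t (hTm t ht).2.2.1)) hcopv hc1' hc2'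
  have hSQ : S.erase r₁ ⊆ Q := by
    intro p hp
    rw [mem_erase] at hp
    rw [hQ]
    unfold QQ
    rw [mem_erase, mem_filter, mem_Icc]
    have hpp := hSp p hp.2
    refine ⟨hp.1, ⟨hpp.one_lt.le, ?_⟩, hpp⟩
    apply Nat.le_floor
    have h1 : p ≤ P₀ := Nat.le_of_dvd hP₀0 (dvd_prod_of_mem _ hp.2)
    have h2 : (p:ℝ) ≤ P₀ := by exact_mod_cast h1
    rw [← hL]
    push_cast
    linarith
  have hres := hmain T (g q') (h c' v) ?_ ?_ Q hQ F hF0 ?_ ?_ ?_
  · refine hres.trans ?_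
    apply sum_le_sum_of_subset_of_nonneg
    · intro i hi
      rw [mem_filter] at hi ⊢
      refine ⟨hi.1, ?_⟩
      have h1 : (k:ℝ) ≤ cnt T (g q') (h c' v) i := by
        refine hFk.trans (le_trans ?_ hi.2)
        apply mul_le_mul_of_nonneg_left _ hκ₂.le
        rw [mul_div_assoc]
        apply mul_le_mul_of_nonneg_left _ hF0.le
        rw [le_div_iff₀ hL0]
        exact hTc
      have h2 : k ≤ cnt T (g q') (h c' v) i := by exact_mod_cast h1
      refine h2.trans ?_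
      unfold cnt
      exact card_le_card (filter_subset_filter _ hTsub)
    · intro i _ _
      positivity
  · -- the coefficients
    intro t ht
    obtain ⟨k1, k2, k3, k4⟩ := hTm t ht
    have hB1 : (8 * q' : ℝ) ≤ Real.exp (L / 128) := by
      have : (0:ℝ) ≤ 8 * c' + v.natAbs := by positivity
      linarith
    have hdt := d_pos t
    refine ⟨?_, ?_, ?_, hcoT t ht, k4⟩
    · unfold g
      have : 0 < 8 * q' * d t ^ 2 := by positivity
      omega
    · apply hpow
      unfold g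
      push_cast
      rw [← hexp64]
      exact mul_le_mul hB1 ((hdsq t).trans (h36 t k2)) (by positivity) (Real.exp_pos _).le
    · apply hpow
      have h1 : ((h c' v t).natAbs : ℝ) = |((h c' v t : ℤ) : ℝ)| := by
        rw [Nat.cast_natAbs, Int.cast_abs]
      have h2 : |((h c' v t : ℤ) : ℝ)| ≤ 8 * c' * (d t : ℝ) ^ 2 + v.natAbs := by
        unfold h
        push_cast
        refine (abs_add_le _ _).trans ?_
        have e1 : |(8 * c' * (d t : ℝ) ^ 2 : ℝ)| = 8 * c' * (d t : ℝ) ^ 2 := abs_of_nonneg (by positivity)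
        have e2 : |(v : ℝ)| = (v.natAbs : ℝ) := by rw [Nat.cast_natAbs, Int.cast_abs]
        rw [e1, e2]
      rw [h1, ← hexp64]
      have h3 : (1:ℝ) ≤ 36 ^ t := one_le_pow₀ (by norm_num)
      calc |((h c' v t : ℤ) : ℝ)| ≤ 8 * c' * (d t : ℝ) ^ 2 + v.natAbs := h2
        _ ≤ 8 * c' * 36 ^ t + v.natAbs * 36 ^ t := by
            have h4 := hdsq t
            have h5 : (v.natAbs : ℝ) ≤ v.natAbs * 36 ^ t := le_mul_of_one_le_right (Nat.cast_nonneg _) h3
            gcongr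
        _ = (8 * c' + v.natAbs) * 36 ^ t := by ring
        _ ≤ Real.exp (L / 128) * Real.exp (L / 128) := by
            apply mul_le_mul _ (h36 t k2) (by positivity) (Real.exp_pos _).le
            have : (0:ℝ) ≤ 8 * q' := by positivity
            linarith
  · -- not proportional
    have key : ∀ s t : ℕ, 1 ≤ t → t < s → (g q' s : ℤ) * h c' v t ≠ g q' t * h c' v s := by
      intro s t ht hst heq
      have h1 : ((g q' s : ℕ) : ℤ) * h c' v t - g q' t * h c' v s = 64 * (q' * (v * (b (s + t) * b (s - t)))) := by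
        unfold g h
        push_cast
        linear_combination 8 * q' * v * diff_sq hst.le
      rw [heq, sub_self] at h1
      have hb1 : (b (s + t) : ℤ) ≠ 0 := by
        have := b_pos (show 1 ≤ s + t by omega)
        exact_mod_cast (by omega : b (s + t) ≠ 0)
      have hb2 : (b (s - t) : ℤ) ≠ 0 := by
        have := b_pos (show 1 ≤ s - t by omega)
        exact_mod_cast (by omega : b (s - t) ≠ 0)
      have hq0 : (q' : ℤ) ≠ 0 := by exact_mod_cast hq'0.ne'
      have h2 : (64:ℤ) * (q' * (v * (b (s + t) * b (s - t)))) ≠ 0 := by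
        apply mul_ne_zero (by norm_num)
        exact mul_ne_zero hq0 (mul_ne_zero hv (mul_ne_zero hb1 hb2))
      exact h2 h1.symm
    intro s hs t ht hst heq
    rcases lt_or_gt_of_ne hst with hlt | hlt
    · exact key t s (hTm s hs).1 hlt heq.symm
    · exact key s t (hTm t ht).1 hlt heq
  · -- the first moment
    have h1 : ∑ r ∈ range (PQ Q), ((T.filter (fun t => ∀ p ∈ Q, ¬ (p : ℤ) ∣ (r : ℤ) * g q' t + h c' v t)).card : ℝ) =
        ∑ t ∈ T, (((range (PQ Q)).filter (fun r : ℕ => ∀ p ∈ Q, ¬ (p : ℤ) ∣ (r : ℤ) * g q' t + h c' v t)).card : ℝ) := by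
      simp only [card_filter]
      push_cast
      rw [sum_comm]
    rw [h1]
    have h2 : ∀ t ∈ T, F * (PQ Q * WQ Q) ≤
        (((range (PQ Q)).filter (fun r : ℕ => ∀ p ∈ Q, ¬ (p : ℤ) ∣ (r : ℤ) * g q' t + h c' v t)).card : ℝ) := by
      intro t ht
      have h3 := class_count_gain Q (S.erase r₁) hQ' hSQ (g q' t : ℤ) (h c' v t) (hcoT t ht) (by
        intro p hp
        have h4 : p ∣ g q' t := by
          have h5 : p ∣ P₀ := dvd_prod_of_mem _ (mem_of_mem_erase hp)
          unfold g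
          rw [hq']
          exact ((h5.mul_left q).mul_left 8).mul_right _
        exact_mod_cast h4)
      set N := (((range (PQ Q)).filter (fun r : ℕ => ∀ p ∈ Q, ¬ (p : ℤ) ∣ (r : ℤ) * g q' t + h c' v t)).card : ℝ) with hN
      have hN0 : 0 ≤ N := Nat.cast_nonneg _
      calc F * (PQ Q * WQ Q) ≤ F * (WQ (S.erase r₁) * N) := mul_le_mul_of_nonneg_left h3 hF0.le
        _ = (F * WQ (S.erase r₁)) * N := by ring
        _ ≤ 1 * N := mul_le_mul_of_nonneg_right (hSF r₁) hN0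
        _ = N := one_mul _
    have h3 := sum_le_sum h2
    rw [sum_const, nsmul_eq_mul] at h3
    refine le_trans (le_of_eq ?_) h3
    ring
  · -- the second moment
    refine (hsec M T hTsub _ hQ').trans ?_
    have hML : (M:ℝ) ≤ 4 * n₀ * T.card := by
      have h1 : L ≤ 4000 * n₀ * T.card := by
        have h2 : 4000 * n₀ * (δ * L) ≤ 4000 * n₀ * T.card := by gcongr
        have h3 : 4000 * n₀ * (δ * L) = L := by
          rw [hδ]
          field_simp
        linarith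
      linarith
    have hWT : 1 ≤ WQ Q ^ 2 * T.card := by
      set y : ℕ := ⌊Real.log z / (64:ℕ)⌋₊ with hy
      have hyle : (y:ℝ) ≤ L := by
        have := Nat.floor_le (show 0 ≤ L / (64 : ℕ) by positivity)
        push_cast at this
        have h2 : (y:ℝ) ≤ L / 64 := by
          rw [hy]
          push_cast
          exact this
        linarith
      have hy3 : 3 ≤ y := by
        rw [hy]
        apply Nat.le_floor
        push_cast
        linarith
      have h1 := hWl y hy3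
      have h2 : Wz y ≤ WQ Q := WQ_QQ_ge y r₁
      have hy1 : (1:ℝ) < y := by
        have : (3:ℝ) ≤ y := by exact_mod_cast hy3
        linarith
      have h3 : Real.log y ≤ Real.log L := Real.log_le_log (by linarith) hyle
      have h4 : 0 < Real.log y := Real.log_pos hy1
      have h5 : c₃ / Real.log L ≤ WQ Q := (div_le_div_of_nonneg_left hc₃.le h4 h3).trans (h1.trans h2)
      have h6 : 0 < Real.log L := h4.trans_le h3
      calc (1:ℝ) = (Real.log L) ^ 2 / (Real.log L) ^ 2 := by rw [div_self (by positivity)]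
        _ ≤ (c₃ ^ 2 * (δ * L)) / (Real.log L) ^ 2 := by gcongr
        _ = (c₃ / Real.log L) ^ 2 * (δ * L) := by rw [div_pow]; ring
        _ ≤ WQ Q ^ 2 * T.card := by gcongr
    have h1 : (PQ Q : ℝ) * T.card ≤ PQ Q * (WQ Q * T.card) ^ 2 := by
      apply mul_le_mul_of_nonneg_left _ hPQ0.le
      calc (T.card : ℝ) = 1 * T.card := by ring
        _ ≤ (WQ Q ^ 2 * T.card) * T.card := by gcongr
        _ = (WQ Q * T.card) ^ 2 := by ring
    have h2 : C * ((PQ Q : ℝ) * WQ Q ^ 2 * M ^ 2) ≤ 16 * n₀ ^ 2 * C * (PQ Q * (WQ Q * T.card) ^ 2) := by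
      calc C * ((PQ Q : ℝ) * WQ Q ^ 2 * M ^ 2) ≤ C * ((PQ Q : ℝ) * WQ Q ^ 2 * (4 * n₀ * T.card) ^ 2) := by gcongr
        _ = _ := by ring
    have h3 : (PQ Q : ℝ) * (WQ Q * T.card) ^ 2 ≤ PQ Q * (WQ Q * (F * T.card)) ^ 2 := by
      have : (T.card : ℝ) ≤ F * T.card := le_mul_of_one_le_left hn.le hF1
      gcongr
    calc (PQ Q : ℝ) * T.card + C * (PQ Q * WQ Q ^ 2 * M ^ 2) ≤ E * (PQ Q * (WQ Q * T.card) ^ 2) := by
          rw [hE]
          nlinarith
      _ ≤ E * (PQ Q * (WQ Q * (F * T.card)) ^ 2) := mul_le_mul_of_nonneg_left h3 (by linarith)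
  · refine hTc.trans ?_
    exact le_mul_of_one_le_left hn.le hF1

open Classical in
/-- **The multipliers, many primes.** -/
theorem dens_gain (q : ℕ) (hq : 0 < q) (c : ℕ) (v : ℤ) (m₀ : ℕ)
    (hco : IsCoprime ((g q m₀ : ℕ) : ℤ) (h c v m₀)) (k : ℕ) : ∃ κ : ℝ, 0 < κ ∧ ∃ X₀ : ℕ, ∀ X : ℕ, X₀ ≤ X →
      κ * Real.log X ≤ ∑ j ∈ (Icc 1 X).filter (fun j : ℕ => j % q = c % q ∧
        k ≤ ((Icc 1 ⌊Real.log j⌋₊).filter (fun m : ℕ => (8 * (j : ℤ) * (d m : ℤ) ^ 2 + v).toNat.Prime)).card),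
        1 / (j : ℝ) := by
  have hv : v ≠ 0 := by
    intro hv
    rw [hv] at hco
    have h1 : IsCoprime (2 : ℤ) 2 := by
      apply hco.mono
      · exact ⟨4 * q * (d m₀ : ℤ) ^ 2, by unfold g; push_cast; ring⟩
      · exact ⟨4 * c * (d m₀ : ℤ) ^ 2, by unfold h; ring⟩
    have h2 := isCoprime_self.1 h1
    rw [Int.isUnit_iff] at h2
    omega
  obtain ⟨q', c', hq', hqq', hcc', K, hK, κ, hκ, z₀, hz₀⟩ := one_scale_gain q hq c v hv m₀ hco k
  have hqc : (0:ℝ) < c' + q' := by positivity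
  refine ⟨κ / (2 * (K + 1) * (c' + q')), by positivity, (z₀ + c' + q' + 3) ^ (K + 1), fun X hX => ?_⟩
  obtain ⟨z, hz1, hz2⟩ := exists_root (K + 1) X (by omega)
  have hz : z₀ + c' + q' + 2 ≤ z := by
    by_contra hcon
    push Not at hcon
    have h1 : (z + 1) ^ (K + 1) ≤ (z₀ + c' + q' + 3) ^ (K + 1) := Nat.pow_le_pow_left (by omega) _
    omega
  have h0 := hz₀ z (by omega)
  have hz2r : (2:ℝ) ≤ z := by exact_mod_cast (by omega : 2 ≤ z)
  have hlz : 0 < Real.log z := Real.log_pos (by linarith)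
  have hX0 : 0 < X := lt_of_lt_of_le (pow_pos (by omega) _) hX
  have hX0r : (0:ℝ) < X := by exact_mod_cast hX0
  -- the logarithms
  have hlog : Real.log X ≤ 2 * (K + 1) * Real.log z := by
    have h1 : (X:ℝ) ≤ (z:ℝ) ^ (2 * (K + 1)) := by
      have h2 : X ≤ (z ^ 2) ^ (K + 1) := by
        refine hz2.le.trans (Nat.pow_le_pow_left ?_ _)
        nlinarith
      rw [← pow_mul] at h2
      exact_mod_cast h2
    have h2 := Real.log_le_log hX0r h1
    rw [Real.log_pow] at h2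
    push_cast at h2
    exact h2
  set S := (Ioc (Nat.sqrt z) (z ^ K)).filter
        (fun i : ℕ => k ≤ ((Icc 1 ⌊Real.log z / 1000⌋₊).filter
          (fun m : ℕ => ((g q' m : ℤ) * i + h c' v m).toNat.Prime)).card) with hS
  have hSm : ∀ i ∈ S, Nat.sqrt z < i ∧ i ≤ z ^ K ∧ k ≤ ((Icc 1 ⌊Real.log z / 1000⌋₊).filter
          (fun m : ℕ => ((g q' m : ℤ) * i + h c' v m).toNat.Prime)).card := by
    intro i hi
    rw [hS, mem_filter, mem_Ioc] at hi
    exact ⟨hi.1.1, hi.1.2, hi.2⟩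
  have hinj : ∀ i ∈ S, ∀ i' ∈ S, c' + q' * i = c' + q' * i' → i = i' := by
    intro i _ i' _ h
    exact Nat.eq_of_mul_eq_mul_left hq' (by omega)
  have h1 : ∑ i ∈ S, 1 / ((c' + q' * i : ℕ) : ℝ) ≤ ∑ j ∈ (Icc 1 X).filter (fun j : ℕ => j % q = c % q ∧
        k ≤ ((Icc 1 ⌊Real.log j⌋₊).filter (fun m : ℕ => (8 * (j : ℤ) * (d m : ℤ) ^ 2 + v).toNat.Prime)).card),
        1 / (j : ℝ) := by
    rw [← sum_image (f := fun j : ℕ => 1 / (j : ℝ)) (g := fun i => c' + q' * i) (s := S)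
      (fun i hi i' hi' h => hinj i hi i' hi' h)]
    apply sum_le_sum_of_subset_of_nonneg
    · intro j hj
      rw [mem_image] at hj
      obtain ⟨i, hi, rfl⟩ := hj
      obtain ⟨k1, k2, k3⟩ := hSm i hi
      have hi1 : 1 ≤ i := by omega
      rw [mem_filter, mem_Icc]
      refine ⟨⟨?_, ?_⟩, ?_, k3.trans (card_le_card ?_)⟩
      · have : 0 < q' * i := Nat.mul_pos hq' hi1
        omega
      · calc c' + q' * i ≤ c' * z ^ K + q' * z ^ K := by
              have h3 : 1 ≤ z ^ K := Nat.one_le_pow _ _ (by omega)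
              have h4 : c' ≤ c' * z ^ K := Nat.le_mul_of_pos_right _ (by omega)
              have h5 : q' * i ≤ q' * z ^ K := Nat.mul_le_mul_left _ k2
              omega
          _ = (c' + q') * z ^ K := by ring
          _ ≤ z * z ^ K := Nat.mul_le_mul_right _ (by omega)
          _ = z ^ (K + 1) := by ring
          _ ≤ X := hz1
      · obtain ⟨e, he⟩ := hqq'
        rw [he, mul_assoc, Nat.add_mul_mod_self_left]
        exact hcc'
      · intro m hm
        rw [mem_filter, mem_Icc] at hm ⊢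
        have h3 : z < i * i := Nat.sqrt_lt.1 k1
        have h4 : Real.log z ≤ 2 * Real.log i := by
          have h5 : (z:ℝ) ≤ (i:ℝ) ^ 2 := by
            have : z ≤ i ^ 2 := by rw [sq]; exact h3.le
            exact_mod_cast this
          have h6 := Real.log_le_log (by linarith) h5
          rw [Real.log_pow] at h6
          push_cast at h6
          exact h6
        have h5 : Real.log i ≤ Real.log ((c' + q' * i : ℕ) : ℝ) := by
          apply Real.log_le_log (by exact_mod_cast hi1)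
          have : i ≤ c' + q' * i := by nlinarith
          exact_mod_cast this
        refine ⟨⟨hm.1.1, hm.1.2.trans (Nat.floor_le_floor ?_)⟩, ?_⟩
        · linarith
        · have e : 8 * ((c' + q' * i : ℕ) : ℤ) * (d m : ℤ) ^ 2 + v = (g q' m : ℤ) * i + h c' v m := by
            unfold g h
            push_cast
            ring
          rw [e]
          exact hm.2
    · intro j _ _
      positivity
  refine le_trans ?_ h1
  have h2 : (1 / (c' + q') : ℝ) * ∑ i ∈ S, 1 / (i : ℝ) ≤ ∑ i ∈ S, 1 / ((c' + q' * i : ℕ) : ℝ) := by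
    rw [mul_sum]
    apply sum_le_sum
    intro i hi
    have hi1 : 1 ≤ i := by have := (hSm i hi).1; omega
    have hir : (1:ℝ) ≤ i := by exact_mod_cast hi1
    have h3 : ((c' + q' * i : ℕ) : ℝ) ≤ (c' + q') * i := by
      push_cast
      have : (0:ℝ) ≤ c' := Nat.cast_nonneg _
      nlinarith
    rw [div_mul_div_comm, one_mul]
    apply one_div_le_one_div_of_le _ h3
    have : 0 < c' + q' * i := by
      have := Nat.mul_pos hq' hi1
      omega
    exact_mod_cast this
  refine le_trans ?_ h2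
  calc κ / (2 * (K + 1) * (c' + q')) * Real.log X ≤ κ / (2 * (K + 1) * (c' + q')) * (2 * (K + 1) * Real.log z) := by gcongr
    _ = (1 / (c' + q') : ℝ) * (κ * Real.log z) := by
      field_simp
    _ ≤ _ := by gcongr

end Pool.Agent.Helper24K9.PD
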